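import Pool.Agent.Helper97.WF.Core
import Pool.Agent.Helper46.WF.Strip
import Pool.Agent.Helper61.GL.Trf

/-!
# Lemma W (rigidity of absorbed bilinear noise), finite pathwise form: definitions and statements

Text: /team-store/ns_chapter_W60.md (helper60), /team-store/ns_W_finite.md v2 (helper25).
-/

set_option autoImplicit false

namespace Pool.Agent.Helper92.W

open Finset Pool.Agent.Helper69.RK Pool.Agent.Helper61.GL Pool.Agent.Helper46.WF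

noncomputable section

section defs

variable {Ω α γ : Type} [Fintype Ω]

/-- the cell of level `l` of a real number -/
def fl (l : ℕ) (x : ℝ) : ℤ := ⌊(2 : ℝ) ^ l * x⌋

/-- the position in the cell of level `l` -/
def fr (l : ℕ) (v : Fin 2 → ℝ) : Fin 2 → ℝ := fun i => Int.fract ((2 : ℝ) ^ l * v i)

/-- surprisal of `f` given `g`, in bits; `CH μ f g` is its mean -/
def srp (μ : Ω → ℝ) (f : Ω → α) (g : Ω → γ) (ω : Ω) : ℝ :=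
  Real.logb 2 (pr μ g ω) - Real.logb 2 (pr μ (fun ω' => (f ω', g ω')) ω)

/-- the law given the cell of level `l` of `X` -/
def lw (μ : Ω → ℝ) (X : Ω → Fin 2 → ℝ) (l : ℕ) (ω : Ω) : Ω → ℝ := cw μ (fun ω' => cel l (X ω')) ω

/-- entropy of the next `ρ` digits of `X` in its cell of level `l` -/
def eL (μ : Ω → ℝ) (X : Ω → Fin 2 → ℝ) (ρ l : ℕ) (ω : Ω) : ℝ :=
  Hh (lw μ X l ω) (fun ω' => cel ρ (fr l (X ω')))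

/-- deficit of the window `(t - R, t]` of `z` in the cell of level `t - R` -/
def de (μ : Ω → ℝ) (z : Ω → ℝ) (R t : ℕ) (ω : Ω) : ℝ :=
  R - LH μ (fun ω' => fl t (z ω')) (fun ω' => fl (t - R) (z ω')) ω

/-- deficient levels of the path `ω` -/
def DL (μ : Ω → ℝ) (z : Ω → ℝ) (c : ℝ) (R t : ℕ) (ω : Ω) : Prop := R ≤ t ∧ c * R / 2 ≤ de μ z R t ω

/-- non-atomicity of `om Y U` in the cell of level `j` of `Y`, precision `2 ^ (-ρ)` -/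
def nl (μ : Ω → ℝ) (Y : Ω → Fin 2 → ℝ) (j ρ : ℕ) (U : Fin 2 → ℝ) (ω : Ω) : ℝ :=
  na (lw μ Y j ω) (fun ω' => fr j (Y ω')) ((1 / 2) ^ ρ) U

/-- average non-atomicity for differences of two independent elements of the cell of `X` -/
def sl (μ : Ω → ℝ) (Y X : Ω → Fin 2 → ℝ) (j l ρ : ℕ) (ω : Ω) : ℝ :=
  nas (lw μ Y j ω) (fun ω' => fr j (Y ω')) (lw μ X l ω) (fun ω' => fr l (X ω')) ρ

/-- strips -/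
def Str (w : Ω → ℝ) (V : Ω → Fin 2 → ℝ) (θ : Fin 2 → ℝ) (r e : ℝ) : Prop :=
  ∃ c : ℝ, Pw w (fun ω => r < |om (V ω) θ - c|) ≤ e

/-- one block of absorbed bilinear noise over the base `F` -/
structure Blk (n : ℕ) (η c : ℝ) {φ : Type} (μ : Ω → ℝ) (F : Ω → φ) (z : Ω → ℝ)
    (X Y : Ω → Fin 2 → ℝ) : Prop where
  nn : ∀ ω, 0 ≤ μ ω
  ms : mass μ = 1
  zb : ∀ ω, 0 ≤ z ω ∧ z ω < 1
  xb : ∀ ω i, |X ω i| ≤ 1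
  yb : ∀ ω i, |Y ω i| ≤ 1
  /-- `I(z; X, Y | F) ≤ η n` -/
  i1 : CH μ (fun ω => fl n (z ω)) F ≤ CH μ (fun ω => fl n (z ω)) (fun ω => (X ω, Y ω, F ω)) + η * n
  /-- `I(z + om X Y; X, Y | F) ≤ η n` -/
  i2 : CH μ (fun ω => fl n (z ω + om (X ω) (Y ω))) F ≤
    CH μ (fun ω => fl n (z ω + om (X ω) (Y ω))) (fun ω => (X ω, Y ω, F ω)) + η * n
  /-- `I(X; Y | F) ≤ η n` -/
  i3 : CH μ X F ≤ CH μ X (fun ω => (Y ω, F ω)) + η * n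
  tx : (1 - η) * n ≤ CH μ (fun ω => fl n (X ω 0)) F
  ty : (1 - η) * n ≤ CH μ (fun ω => fl n (Y ω 0)) F
  /-- `z` is unsaturated along most paths -/
  un : Pw μ (fun ω => ∃ a b : ℕ, a ≤ b ∧ b ≤ n ∧ (1 - c) * ((b : ℝ) - a) + η * n <
    srp μ (fun ω' => fl b (z ω')) (fun ω' => (fl a (z ω'), F ω')) ω) ≤ η

/-- the visible configuration (no base, angle bounded from below) -/
structure Cfg (n s : ℕ) (η c : ℝ) (μ : Ω → ℝ) (z : Ω → ℝ) (X Y : Ω → Fin 2 → ℝ) : Prop where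
  nn : ∀ ω, 0 ≤ μ ω
  ms : mass μ = 1
  zb : ∀ ω, 0 ≤ z ω ∧ z ω < 1
  xb : ∀ ω i, |X ω i| ≤ 32
  yb : ∀ ω i, |Y ω i| ≤ 32
  ang : ∀ ω, μ ω ≠ 0 → 1 / 8 ≤ |om (X ω) (Y ω)|
  i1 : Hh μ (fun ω => fl n (z ω)) ≤ CH μ (fun ω => fl n (z ω)) (fun ω => (X ω, Y ω)) + η * n
  i2 : Hh μ (fun ω => fl n (z ω + om (X ω) (Y ω) / 2 ^ s)) ≤
    CH μ (fun ω => fl n (z ω + om (X ω) (Y ω) / 2 ^ s)) (fun ω => (X ω, Y ω)) + η * n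
  i3 : Hh μ X ≤ CH μ X Y + η * n
  tx : (1 - η) * n ≤ Hh μ (fun ω => fl n (X ω 0))
  ty : (1 - η) * n ≤ Hh μ (fun ω => fl n (Y ω 0))
  un : Pw μ (fun ω => ∃ a b : ℕ, a ≤ b ∧ b ≤ n ∧ (1 - c) * ((b : ℝ) - a) + η * n <
    srp μ (fun ω' => fl b (z ω')) (fun ω' => fl a (z ω')) ω) ≤ η

end defs

/-! ### the theorem -/

/-- **THEOREM W** (one block form) -/
def ST_W : Prop := ∀ c κ ε : ℝ, 0 < c → c ≤ 1 → 0 < κ → κ < 1 → 0 < ε →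
  ∃ η : ℝ, 0 < η ∧ ∃ n0 : ℕ, ∀ n : ℕ, n0 ≤ n → ∀ (Ω φ : Type) [Fintype Ω] (μ : Ω → ℝ) (F : Ω → φ)
    (z : Ω → ℝ) (X Y : Ω → Fin 2 → ℝ), Blk n η c μ F z X Y →
      Pw μ (fun ω => (2 : ℝ) ^ (-(κ * n)) < |om (X ω) (Y ω)|) ≤ ε

/-- there is no visible configuration -/
def ST_CFG : Prop := ∀ c κ : ℝ, 0 < c → c ≤ 1 → 0 < κ → κ < 1 →
  ∃ η : ℝ, 0 < η ∧ ∃ n0 : ℕ, ∀ n s : ℕ, n0 ≤ n → (s : ℝ) ≤ κ * n → ∀ (Ω : Type) [Fintype Ω] (μ : Ω → ℝ)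
    (z : Ω → ℝ) (X Y : Ω → Fin 2 → ℝ), ¬ Cfg n s η c μ z X Y

/-! ### Kolmogorov-Rogozin in a chain (LEMMA K, helper61) -/

open Classical in
/-- LEMMA K: `v` is nearly independent of `(z, ζ)` and `z` absorbs `F ζ v`; then along most paths the
cells of `v` are atomic at the deficient levels of `z` -/
def ST_K : Prop := ∀ c a e : ℝ, 0 < c → c ≤ 1 → 0 < a → 0 < e → ∀ C : ℕ, ∃ R0 : ℕ, ∀ R : ℕ, R0 ≤ R →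
  ∃ η : ℝ, 0 < η ∧ ∃ n0 : ℕ, ∀ n T : ℕ, n0 ≤ n → ∀ (Ω γ β κ : Type) [Fintype Ω] (μ : Ω → ℝ) (z : Ω → ℝ)
    (ζ : Ω → γ) (v : Ω → β) (F : γ → β → ℝ) (cl : ℕ → β → κ),
    (∀ ω, 0 ≤ μ ω) → mass μ = 1 → (∀ ω, 0 ≤ z ω ∧ z ω < 1) →
    (∀ ω ω', μ ω ≠ 0 → μ ω' ≠ 0 → |F (ζ ω) (v ω')| ≤ 2 ^ C) →
    (∀ l ω ω', μ ω ≠ 0 → μ ω' ≠ 0 → cl (l + 1) (v ω) = cl (l + 1) (v ω') → cl l (v ω) = cl l (v ω')) →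
    (∀ l ω0 ω ω', μ ω0 ≠ 0 → μ ω ≠ 0 → μ ω' ≠ 0 → cl l (v ω) = cl l (v ω') →
      |F (ζ ω0) (v ω) - F (ζ ω0) (v ω')| * 2 ^ (l + T) ≤ 2 ^ C) →
    Hh μ (fun ω => fl n (z ω)) + Hh μ ζ + Hh μ v ≤ Hh μ (fun ω => (fl n (z ω), ζ ω, v ω)) + η * n →
    CH μ (fun ω => fl n (z ω + F (ζ ω) (v ω))) ζ ≤ Hh μ (fun ω => fl n (z ω)) + η * n →
    ∑ l ∈ range (n + 1 - T), Pw μ (fun ω => DL μ z c R (l + T) ω ∧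
      ∀ x : ℝ, a ≤ Pw (cw μ (fun ω' => cl l (v ω')) ω)
        (fun ω' => (1 / 2) ^ (l + T) < |F (ζ ω) (v ω') - x|)) ≤ e * n

/-! ### pathwise statements about one variable -/

open Classical in
/-- LAW OF LARGE NUMBERS for nested partitions: surprisals minus local entropies over windows of `ρ` levels
(at most `2 ^ K` subcells per window) are sums of `ρ` families of orthogonal increments -/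
def ST_LLN : Prop := ∀ K ρ : ℕ, 1 ≤ ρ → ∃ C : ℝ, ∀ (Ω κ : Type) [Fintype Ω] (μ : Ω → ℝ) (cl : ℕ → Ω → κ),
    (∀ ω, 0 ≤ μ ω) → mass μ = 1 →
    (∀ l ω ω', cl (l + 1) ω = cl (l + 1) ω' → cl l ω = cl l ω') →
    (∀ l ω, ((univ.filter (fun ω' => cl l ω' = cl l ω)).image (cl (l + ρ))).card ≤ 2 ^ K) →
    ∀ (N : ℕ) (S : Finset ℕ), S ⊆ range N →
    ∑ ω, μ ω * (∑ l ∈ S, (srp μ (cl (l + ρ)) (cl l) ω - LH μ (cl (l + ρ)) (cl l) ω)) ^ 2 ≤ C * (N + 1)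

open Classical in
/-- DENSITY of the deficient levels in all macroscopic intervals, along most paths -/
def ST_DEN : Prop := ∀ c ε : ℝ, 0 < c → c ≤ 1 → 0 < ε → ∀ R : ℕ, 1 ≤ R → ∃ η : ℝ, 0 < η ∧ ∃ n0 : ℕ,
  ∀ n : ℕ, n0 ≤ n → ∀ (Ω : Type) [Fintype Ω] (μ : Ω → ℝ) (z : Ω → ℝ),
    (∀ ω, 0 ≤ μ ω) → mass μ = 1 → (∀ ω, 0 ≤ z ω ∧ z ω < 1) →
    Pw μ (fun ω => ∃ a b : ℕ, a ≤ b ∧ b ≤ n ∧ (1 - c) * ((b : ℝ) - a) + η * n <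
      srp μ (fun ω' => fl b (z ω')) (fun ω' => fl a (z ω')) ω) ≤ η →
    Pw μ (fun ω => ∃ a b : ℕ, b ≤ n ∧ (a : ℝ) + ε * n ≤ b ∧
      ((((Ico a b).filter (fun t => DL μ z c R t ω)).card : ℝ) < c / 4 * ((b : ℝ) - a))) ≤ ε

/-- PREFIX SUMS of the local entropies, along most paths -/
def ST_PRE : Prop := ∀ ε : ℝ, 0 < ε → ∀ ρ : ℕ, 1 ≤ ρ → ∃ η : ℝ, 0 < η ∧ ∃ n0 : ℕ,
  ∀ n : ℕ, n0 ≤ n → ∀ (Ω : Type) [Fintype Ω] (μ : Ω → ℝ) (X : Ω → Fin 2 → ℝ),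
    (∀ ω, 0 ≤ μ ω) → mass μ = 1 → (∀ ω i, |X ω i| ≤ 32) →
    (1 - η) * n ≤ Hh μ (fun ω => fl n (X ω 0)) →
    Pw μ (fun ω => ∃ N : ℕ, N ≤ n ∧ ∑ l ∈ range N, eL μ X ρ l ω < ρ * N - ε * n) ≤ ε

/-- SLOW VARIATION of the local entropies, in mean square -/
def ST_SLO : Prop := ∀ (Ω : Type) [Fintype Ω] (μ : Ω → ℝ) (X : Ω → Fin 2 → ℝ),
    (∀ ω, 0 ≤ μ ω) → mass μ = 1 → ∀ ρ M : ℕ,
    ∑ l ∈ range M, ∑ ω, μ ω * (eL μ X ρ (l + 1) ω - eL μ X ρ l ω) ^ 2 ≤ 4 * (ρ : ℝ) ^ 2 + 8 * ρ * M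

/-! ### atomicity along the paths of a configuration -/

open Classical in
/-- (1.5): pairs of cells -/
def ST_CLO : Prop := ∀ (c e : ℝ), 0 < c → c ≤ 1 → 0 < e → ∀ ρ : ℕ, ∃ R0 : ℕ, ∀ R : ℕ, R0 ≤ R →
  ∃ η : ℝ, 0 < η ∧ ∃ n0 : ℕ, ∀ n s : ℕ, n0 ≤ n → ∀ (Ω : Type) [Fintype Ω] (μ : Ω → ℝ)
    (z : Ω → ℝ) (X Y : Ω → Fin 2 → ℝ), Cfg n s η c μ z X Y →
    ∑ ω, μ ω * ∑ l ∈ range (n + 1), ∑ j ∈ range (n + 1),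
      (if l + j + s + (ρ + 1) ≤ n ∧ DL μ z c R (l + j + s + (ρ + 1)) ω then sl μ Y X j l ρ ω else 0) ≤
        e * (n : ℝ) ^ 2

open Classical in
/-- (1.6): the reference vector at scale `0` -/
def ST_REF : Prop := ∀ (c e : ℝ), 0 < c → c ≤ 1 → 0 < e → ∀ ρ : ℕ, ∃ R0 : ℕ, ∀ R : ℕ, R0 ≤ R →
  ∃ η : ℝ, 0 < η ∧ ∃ n0 : ℕ, ∀ n s : ℕ, n0 ≤ n → ∀ (Ω : Type) [Fintype Ω] (μ : Ω → ℝ)
    (z : Ω → ℝ) (X Y : Ω → Fin 2 → ℝ), Cfg n s η c μ z X Y →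
    (∑ ω, μ ω * ∑ j ∈ range (n + 1),
      (if j + s + (ρ + 1) ≤ n ∧ DL μ z c R (j + s + (ρ + 1)) ω then nl μ Y j ρ (X ω) ω else 0) ≤ e * n) ∧
    (∑ ω, μ ω * ∑ l ∈ range (n + 1),
      (if l + s + (ρ + 1) ≤ n ∧ DL μ z c R (l + s + (ρ + 1)) ω then nl μ X l ρ (Y ω) ω else 0) ≤ e * n)

/-! ### one pair of cells -/

/-- DIRECTION -/
def ST_G2 : Prop := ∃ C : ℕ, ∀ (R1 R : ℕ) (σ : ℝ), C ≤ R1 → 16 * R1 ≤ R → 0 < σ → σ ≤ 1 / 64 →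
  ∀ (Ω Ω' : Type) [Fintype Ω] [Fintype Ω'] (w : Ω → ℝ) (V : Ω → Fin 2 → ℝ) (w' : Ω' → ℝ) (Y : Ω' → Fin 2 → ℝ),
    (∀ ω, 0 ≤ w ω) → ∑ ω, w ω = 1 → (∀ ω, w ω ≠ 0 → ∀ i, 0 ≤ V ω i ∧ V ω i < 1) →
    (∀ ω, 0 ≤ w' ω) → ∑ ω, w' ω = 1 → (∀ ω, w' ω ≠ 0 → ∀ i, 0 ≤ Y ω i ∧ Y ω i < 1) →
    nas w V w' Y R ≤ σ ^ 2 →
    (1 - 1 / 16) * R ≤ Hh w (fun ω => cel R (V ω)) → (1 - 1 / 16) * R ≤ Hh w' (fun ω => cel R (Y ω)) →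
    (R1 : ℝ) / 2 ≤ Hh w' (fun ω => cel R1 (Y ω)) →
    ∃ θ : Fin 2 → ℝ, θ 0 ^ 2 + θ 1 ^ 2 = 1 ∧ Str w V θ (2 ^ (R1 + 4) * (1 / 2) ^ (R / 2)) (4 * σ) ∧
      Str w' Y θ (2 ^ (R1 + 4) * (1 / 2) ^ (R / 2)) (4 * σ)

/-- UNIQUENESS -/
def ST_G3 : Prop := ∃ C : ℕ, ∀ (R1 : ℕ), C ≤ R1 →
  ∀ (Ω : Type) [Fintype Ω] (w : Ω → ℝ) (V : Ω → Fin 2 → ℝ),
    (∀ ω, 0 ≤ w ω) → ∑ ω, w ω = 1 → (∀ ω, w ω ≠ 0 → ∀ i, 0 ≤ V ω i ∧ V ω i < 1) →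
    (R1 : ℝ) / 2 ≤ Hh w (fun ω => cel R1 (V ω)) →
    ∀ (θ θ' : Fin 2 → ℝ) (r : ℝ), θ 0 ^ 2 + θ 1 ^ 2 = 1 → θ' 0 ^ 2 + θ' 1 ^ 2 = 1 → 0 < r →
    Str w V θ r (1 / 16) → Str w V θ' r (1 / 16) → |om θ θ'| ≤ 2 ^ (R1 + 4) * r

/-- INHERITANCE -/
def ST_G4 : Prop := ∀ (Ω : Type) [Fintype Ω] (μ : Ω → ℝ) (X : Ω → Fin 2 → ℝ), (∀ ω, 0 ≤ μ ω) →
  ∀ (l : ℕ) (ω : Ω), μ ω ≠ 0 → ∀ (θ : Fin 2 → ℝ) (r e : ℝ), 0 < e →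
    Str (lw μ X l ω) (fun ω' => fr l (X ω')) θ r (e ^ 2) →
    Pw (lw μ X l ω) (fun ω' => ¬ Str (lw μ X (l + 1) ω') (fun ω'' => fr (l + 1) (X ω'')) θ (2 * r) e) ≤ e

/-- END: a strip is not atomic for vectors with an angle -/
def ST_G5 : Prop := ∃ C : ℕ, ∀ (R1 ρ : ℕ), C ≤ R1 →
  ∀ (Ω : Type) [Fintype Ω] (w : Ω → ℝ) (V : Ω → Fin 2 → ℝ),
    (∀ ω, 0 ≤ w ω) → ∑ ω, w ω = 1 → (∀ ω, w ω ≠ 0 → ∀ i, 0 ≤ V ω i ∧ V ω i < 1) →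
    (R1 : ℝ) / 2 ≤ Hh w (fun ω => cel R1 (V ω)) →
    ∀ (θ U : Fin 2 → ℝ) (r : ℝ), θ 0 ^ 2 + θ 1 ^ 2 = 1 → (∀ i, |U i| ≤ 32) → 0 < r →
    Str w V θ r (1 / 16) → na w V ((1 / 2) ^ ρ) U ≤ 1 / 16 → |om θ U| ≤ 2 ^ (R1 + 10) * (r + (1 / 2) ^ ρ)

/-! ### assembly -/

def ST_ASM : Prop := ST_DEN → ST_PRE → ST_SLO → ST_CLO → ST_REF → ST_G2 → ST_G3 → ST_G4 → ST_G5 → ST_CFG

def ST_RED : Prop := ST_CFG → ST_W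

end

end Pool.Agent.Helper92.W
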