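import Mathlib

/-! The constants of the two assemblies (purely numerical). -/

set_option autoImplicit false

namespace Pool.Agent.Helper92.W

noncomputable section

theorem cst_th {c P : ℝ} (hc : 0 < c) (hc1 : c ≤ 1) (hP : 0 < P) (K : ℕ) : ∃ (θd θ τ : ℝ), 0 < θd ∧ 0 < θ ∧
    θ ≤ 1 / 2 ∧ θd ≤ 1 / 2 ∧ θ ≤ θd ∧ θd = (64 * P + 1) * θ ∧ 0 < τ ∧ ((K : ℝ) + 4) * τ = θ / 25 ∧
    2 * τ ^ 2 ≤ θ / 2 ∧ τ ≤ 1 / 16 ∧
    ((K : ℝ) + 1) * (1 + 5 * K) * (264 / (c / 8) + 3) * θd * 2 ^ 30 = c ∧ 3 * θd ≤ c / 100 ∧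
    (1 : ℝ) ≤ ((K : ℝ) + 1) * (1 + 5 * K) * (264 / (c / 8) + 3) := by
  have hK0 : (0 : ℝ) ≤ K := Nat.cast_nonneg _
  have hKp : (1 : ℝ) ≤ ((K : ℝ) + 1) * (1 + 5 * K) := by
    have h1 := mul_nonneg hK0 hK0
    have e : ((K : ℝ) + 1) * (1 + 5 * K) = 1 + 6 * K + 5 * (K * K) := by ring
    rw [e]
    linarith
  obtain ⟨Kd, hKd⟩ : ∃ Kd : ℝ, Kd = ((K : ℝ) + 1) * (1 + 5 * K) * (264 / (c / 8) + 3) := ⟨_, rfl⟩
  have hKd1 : 2115 ≤ Kd := by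
    rw [hKd]
    have : 2112 ≤ 264 / (c / 8) := by
      rw [le_div_iff₀ (by positivity)]
      linarith
    have h2 := mul_le_mul_of_nonneg_right hKp (show (0 : ℝ) ≤ 264 / (c / 8) + 3 by positivity)
    linarith
  have hKd0 : 0 < Kd := by linarith
  obtain ⟨θd, hθd⟩ : ∃ θd : ℝ, θd = c / (2 ^ 30 * Kd) := ⟨_, rfl⟩
  have hθd0 : 0 < θd := by rw [hθd]; positivity
  have hθdK : Kd * θd * 2 ^ 30 = c := by
    rw [hθd]
    field_simp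
  have hθd1 : θd * 2 ^ 30 ≤ c / 2115 := by
    rw [le_div_iff₀ (by norm_num)]
    have : θd * 2 ^ 30 * 2115 ≤ θd * 2 ^ 30 * Kd := mul_le_mul_of_nonneg_left hKd1 (by positivity)
    linarith
  have hθd2 : θd ≤ 1 / 2 := by
    have : c / 2115 ≤ 1 := by
      rw [div_le_one (by norm_num)]
      linarith
    linarith
  obtain ⟨θ, hθ⟩ : ∃ θ : ℝ, θ = θd / (64 * P + 1) := ⟨_, rfl⟩
  have hθ0 : 0 < θ := by rw [hθ]; positivity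
  have hθe : θd = (64 * P + 1) * θ := by
    rw [hθ]
    field_simp
  have hθθd : θ ≤ θd := by
    have h1 := mul_pos hP hθ0
    have e : (64 * P + 1) * θ = 64 * (P * θ) + θ := by ring
    rw [hθe, e]
    linarith
  have hθ1 : θ ≤ 1 / 2 := hθθd.trans hθd2
  obtain ⟨τ, hτ⟩ : ∃ τ : ℝ, τ = θ / (25 * (K + 4)) := ⟨_, rfl⟩
  have hτ0 : 0 < τ := by rw [hτ]; positivity
  have hτK : ((K : ℝ) + 4) * τ = θ / 25 := by
    rw [hτ]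
    field_simp
  have hτ2 : 4 * τ ≤ θ / 25 := by
    have := mul_nonneg hK0 hτ0.le
    linarith
  have hτ1 : τ ≤ 1 / 16 := by linarith
  refine ⟨θd, θ, τ, hθd0, hθ0, hθ1, hθd2, hθθd, hθe, hτ0, hτK, ?_, hτ1, ?_, ?_, ?_⟩
  · have h1 := mul_le_mul_of_nonneg_left hτ1 hτ0.le
    have e : 2 * τ ^ 2 = 2 * (τ * τ) := by ring
    rw [e]
    linarith
  · rw [← hKd]
    exact hθdK
  · have : c / 2115 ≤ c := by
      rw [div_le_iff₀ (by norm_num)]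
      linarith
    linarith
  · rw [← hKd]
    linarith

theorem cst_half (a b : ℕ) : (2 : ℝ) ^ a * (1 / 2) ^ (a + b) = (1 / 2) ^ b := by
  rw [pow_add, ← mul_assoc, ← mul_pow]
  norm_num

theorem cst_w {θd : ℝ} (hθd0 : 0 < θd) (hθd2 : θd ≤ 1 / 2) (K R1 : ℕ) : ∃ (R : ℕ) (r w : ℝ), 16 * R1 ≤ R ∧ 1 ≤ R ∧
    r = 2 ^ (R1 + 4) * (1 / 2) ^ (R / 2) ∧ 0 < r ∧ w = 2 ^ (R1 + 6) * r ∧ 0 ≤ w ∧
    ((K : ℝ) + 1) * w ≤ θd ∧
    2 ^ (R1 + 10) * (r + (1 / 2) ^ R) + 64 * ((1 / 2) ^ 20 + w) < 1 / 1024 := by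
  have hK0 : (0 : ℝ) ≤ K := Nat.cast_nonneg _
  obtain ⟨k, hk⟩ := exists_pow_lt_of_lt_one (show 0 < θd / (K + 1) by positivity)
    (show (1 / 2 : ℝ) < 1 by norm_num)
  obtain ⟨R, hR⟩ : ∃ R : ℕ, R = 2 * (8 * R1 + 30 + k) := ⟨_, rfl⟩
  have hR2 : R / 2 = 8 * R1 + 30 + k := by omega
  have hRR1 : 16 * R1 ≤ R := by omega
  have hRp : 1 ≤ R := by omega
  obtain ⟨r, hr⟩ : ∃ r : ℝ, r = 2 ^ (R1 + 4) * (1 / 2) ^ (R / 2) := ⟨_, rfl⟩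
  have hr0 : 0 < r := by rw [hr]; positivity
  obtain ⟨w, hw⟩ : ∃ w : ℝ, w = 2 ^ (R1 + 6) * r := ⟨_, rfl⟩
  have hwe0 : w ≤ (1 / 2) ^ 20 * (θd / (K + 1)) := by
    rw [hw, hr, hR2]
    have e : (2 : ℝ) ^ (R1 + 6) * (2 ^ (R1 + 4) * (1 / 2) ^ (8 * R1 + 30 + k)) =
        (2 : ℝ) ^ (2 * R1 + 10) * (1 / 2) ^ ((2 * R1 + 10) + (6 * R1 + 20 + k)) := by
      rw [← mul_assoc, ← pow_add]
      congr 2 <;> ring
    rw [e, cst_half]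
    have e2 : (1 / 2 : ℝ) ^ (6 * R1 + 20 + k) = (1 / 2) ^ (6 * R1) * ((1 / 2) ^ 20 * (1 / 2) ^ k) := by
      rw [pow_add, pow_add, mul_assoc]
    rw [e2]
    have h1 : (1 / 2 : ℝ) ^ (6 * R1) ≤ 1 := pow_le_one₀ (by norm_num) (by norm_num)
    have h2 : (0 : ℝ) ≤ (1 / 2) ^ 20 * (1 / 2) ^ k := by positivity
    calc (1 / 2 : ℝ) ^ (6 * R1) * ((1 / 2) ^ 20 * (1 / 2) ^ k) ≤ 1 * ((1 / 2) ^ 20 * (1 / 2) ^ k) :=
          mul_le_mul_of_nonneg_right h1 h2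
      _ ≤ (1 / 2) ^ 20 * (θd / (K + 1)) := by
          rw [one_mul]
          exact mul_le_mul_of_nonneg_left hk.le (by positivity)
  have hw0 : 0 ≤ w := by rw [hw]; positivity
  have hwK : (K + 1) * w ≤ (1 / 2) ^ 20 * θd := by
    have h1 := mul_le_mul_of_nonneg_left hwe0 (show (0 : ℝ) ≤ (K : ℝ) + 1 by positivity)
    refine h1.trans (le_of_eq ?_)
    field_simp
  have hwe : w ≤ (1 / 2) ^ 20 * θd := by
    have := mul_nonneg hK0 hw0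
    linarith
  have hwθK : (K + 1) * w ≤ θd := by
    have h1 : (1 / 2 : ℝ) ^ 20 ≤ 1 := pow_le_one₀ (by norm_num) (by norm_num)
    have h2 := mul_le_mul_of_nonneg_right h1 hθd0.le
    linarith
  have hsm1 : 2 ^ (R1 + 10) * r ≤ (1 / 2) ^ 16 := by
    rw [hr, hR2]
    have e : (2 : ℝ) ^ (R1 + 10) * (2 ^ (R1 + 4) * (1 / 2) ^ (8 * R1 + 30 + k)) =
        (2 : ℝ) ^ (2 * R1 + 14) * (1 / 2) ^ ((2 * R1 + 14) + (6 * R1 + 16 + k)) := by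
      rw [← mul_assoc, ← pow_add]
      congr 2 <;> ring
    rw [e, cst_half]
    exact pow_le_pow_of_le_one (by norm_num) (by norm_num) (by omega)
  have hsm2 : 2 ^ (R1 + 10) * (1 / 2 : ℝ) ^ R ≤ (1 / 2) ^ 16 := by
    have e : R = (R1 + 10) + (15 * R1 + 50 + 2 * k) := by omega
    rw [e, cst_half]
    exact pow_le_pow_of_le_one (by norm_num) (by norm_num) (by omega)
  refine ⟨R, r, w, hRR1, hRp, hr, hr0, hw, hw0, hwθK, ?_⟩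
  have h1 : w ≤ (1 / 2) ^ 20 * 1 := hwe.trans (mul_le_mul_of_nonneg_left (by linarith) (by positivity))
  have h2 : (2 : ℝ) ^ (R1 + 10) * (r + (1 / 2) ^ R) = 2 ^ (R1 + 10) * r + 2 ^ (R1 + 10) * (1 / 2) ^ R := by
    ring
  rw [h2]
  norm_num at h1 hsm1 hsm2 ⊢
  linarith

theorem cst_cnt {c Kd θd w k : ℝ} (_hc : 0 < c) (hKd : 1 ≤ Kd) (hθd0 : 0 < θd) (hk : 0 ≤ k) (hw0 : 0 ≤ w)
    (hw : (k + 1) * w ≤ θd) (hθdK : Kd * θd * 2 ^ 30 = c) (_h5 : 3 * θd ≤ c / 100) :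
    3 * θd + (Kd * ((10 + 2 * k) * w + 3 * θd) + 2 * θd) * 2 ^ 20 + c / 4 < 3 * (c / 4) := by
  have h1 : Kd * ((10 + 2 * k) * w + 3 * θd) ≤ Kd * (13 * θd) := mul_le_mul_of_nonneg_left (by
    have := mul_nonneg hk hw0
    linarith) (by linarith)
  have h2 : θd ≤ Kd * θd := by
    have := mul_le_mul_of_nonneg_right hKd hθd0.le
    linarith
  have h3 : (Kd * ((10 + 2 * k) * w + 3 * θd) + 2 * θd) * 2 ^ 20 ≤ (15 * (Kd * θd)) * 2 ^ 20 :=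
    mul_le_mul_of_nonneg_right (by linarith) (by positivity)
  have h4 : (15 * (Kd * θd)) * 2 ^ 20 = 15 * c / 2 ^ 10 := by
    have : (15 * (Kd * θd)) * 2 ^ 20 = 15 * (Kd * θd * 2 ^ 30) / 2 ^ 10 := by
      norm_num
      ring
    rw [this, hθdK]
  rw [h4] at h3
  norm_num at h3
  linarith

/-- all constants -/
theorem cst {c P : ℝ} (hc : 0 < c) (hc1 : c ≤ 1) (hP : 0 < P) (K C : ℕ) :
    ∃ (θd θ τ r w : ℝ) (R1 R : ℕ), C ≤ R1 ∧ 1 ≤ R1 ∧ 16 * R1 ≤ R ∧ 1 ≤ R ∧ 0 < θ ∧ θ ≤ 1 / 2 ∧ θd ≤ 1 / 2 ∧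
      θd = (64 * P + 1) * θ ∧ 0 < τ ∧ τ ≤ 1 / 16 ∧ ((K : ℝ) + 4) * τ = θ / 25 ∧ 2 * τ ^ 2 ≤ θ / 2 ∧
      32 ≤ θ * R1 ∧ 16 * ((K : ℝ) + 4) * 25 ≤ θ ^ 3 * R1 ∧
      r = 2 ^ (R1 + 4) * (1 / 2) ^ (R / 2) ∧ 0 < r ∧ w = 2 ^ (R1 + 6) * r ∧
      3 * θd + ((((K : ℝ) + 1) * (1 + 5 * K) * (264 / (c / 8) + 3)) * ((10 + 2 * K) * w + 3 * θd) +
        2 * θd) * 2 ^ 20 + c / 4 < 3 * (c / 4) ∧
      2 ^ (R1 + 10) * (r + (1 / 2) ^ R) + 64 * ((1 / 2) ^ 20 + w) < 1 / 1024 := by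
  obtain ⟨θd, θ, τ, hθd0, hθ0, hθ1, hθd2, _, hθe, hτ0, hτK, hττ, hτ1, hKd, h5, hKd1⟩ := cst_th hc hc1 hP K
  obtain ⟨N1, hN1⟩ := exists_nat_ge (32 / θ)
  obtain ⟨N2, hN2⟩ := exists_nat_ge (16 * ((K : ℝ) + 4) * 25 / θ ^ 3)
  obtain ⟨R1, hR1⟩ : ∃ R1 : ℕ, R1 = C + N1 + N2 + 1 := ⟨_, rfl⟩
  obtain ⟨R, r, w, hRR1, hRp, hr, hr0, hw, hw0, hwK, hsmall⟩ := cst_w hθd0 hθd2 K R1
  refine ⟨θd, θ, τ, r, w, R1, R, by omega, by omega, hRR1, hRp, hθ0, hθ1, hθd2, hθe, hτ0, hτ1, hτK, hττ, ?_, ?_,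
    hr, hr0, hw, cst_cnt hc hKd1 hθd0 (Nat.cast_nonneg _) hw0 hwK hKd h5, hsmall⟩
  · have h1 : 32 / θ ≤ R1 := hN1.trans (by exact_mod_cast (by omega : N1 ≤ R1))
    rw [div_le_iff₀ hθ0] at h1
    linarith
  · have h1 : 16 * ((K : ℝ) + 4) * 25 / θ ^ 3 ≤ R1 := hN2.trans (by exact_mod_cast (by omega : N2 ≤ R1))
    rw [div_le_iff₀ (by positivity)] at h1
    linarith

/-- six minima -/
theorem cst_min {a b c d e f : ℝ} (ha : 0 < a) (hb : 0 < b) (hc : 0 < c) (hd : 0 < d) (he : 0 < e) (hf : 0 < f) :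
    ∃ η : ℝ, 0 < η ∧ η ≤ a ∧ η ≤ b ∧ η ≤ c ∧ η ≤ d ∧ η ≤ e ∧ η ≤ f :=
  ⟨min a (min b (min c (min d (min e f)))),
    lt_min ha (lt_min hb (lt_min hc (lt_min hd (lt_min he hf)))),
    min_le_left _ _, (min_le_right _ _).trans (min_le_left _ _),
    (min_le_right _ _).trans ((min_le_right _ _).trans (min_le_left _ _)),
    (min_le_right _ _).trans ((min_le_right _ _).trans ((min_le_right _ _).trans (min_le_left _ _))),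
    (min_le_right _ _).trans ((min_le_right _ _).trans ((min_le_right _ _).trans
      ((min_le_right _ _).trans (min_le_left _ _)))),
    (min_le_right _ _).trans ((min_le_right _ _).trans ((min_le_right _ _).trans
      ((min_le_right _ _).trans (min_le_right _ _))))⟩

/-- the number of blocks is large -/
theorem cst_T {κ' θ : ℝ} {n T : ℕ} (hθ0 : 0 < θ) (hθ1 : θ ≤ 1 / 2) (hn2 : 16 * (8 * 25 / θ ^ 3) ≤ κ' * n)
    (hTn : κ' * n ≤ 16 * T) : 8 * 25 ≤ θ ^ 3 * T ∧ 200 ≤ θ * T ∧ 1 ≤ T := by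
  have hT3 : 8 * 25 / θ ^ 3 ≤ T := by linarith
  have hT3' : 8 * 25 ≤ θ ^ 3 * T := by
    rw [div_le_iff₀ (by positivity)] at hT3
    linarith
  have hθ3 : θ ^ 3 ≤ θ := by
    have h1 : θ ^ 3 = θ * θ ^ 2 := by ring
    have h2 := mul_le_mul_of_nonneg_left (pow_le_one₀ hθ0.le (by linarith : θ ≤ 1) (n := 2)) hθ0.le
    rw [h1]
    linarith
  have hT0' : (0 : ℝ) ≤ T := Nat.cast_nonneg _
  have hθT : 200 ≤ θ * T := by
    have := mul_le_mul_of_nonneg_right hθ3 hT0'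
    linarith
  have hTr : (1 : ℝ) ≤ T := by
    have h1 := mul_le_mul_of_nonneg_right hθ1 hT0'
    linarith
  exact ⟨hT3', hθT, by exact_mod_cast hTr⟩

/-- the errors -/
theorem cst_err {κ' θ τ e2 e3 : ℝ} {n T : ℕ} (hκ : 0 < κ') (hθ0 : 0 < θ) (he2 : 0 < e2) (he3 : 0 < e3)
    (hTn : κ' * n ≤ 16 * T) : θ * κ' / 400 * n ≤ θ * T ∧
    (τ ^ 2 / 4) ^ 2 * e2 * κ' ^ 2 / (256 * 25) * (n : ℝ) ^ 2 ≤ 1 / 25 * ((τ ^ 2 / 4) ^ 2 * (e2 * (T : ℝ) ^ 2)) ∧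
    κ' * e3 / (256 * 25) * n ≤ 1 / 25 * (1 / 16 * (e3 * T)) := by
  refine ⟨?_, ?_, ?_⟩
  · have h1 := mul_le_mul_of_nonneg_left hTn hθ0.le
    have h2 : (0 : ℝ) ≤ θ * T := by positivity
    have e : θ * κ' / 400 * n = θ * (κ' * n) / 400 := by ring
    rw [e]
    linarith
  · have h1 : (κ' * n) ^ 2 ≤ (16 * (T : ℝ)) ^ 2 := pow_le_pow_left₀ (by positivity) hTn 2
    have e : (τ ^ 2 / 4) ^ 2 * e2 * κ' ^ 2 / (256 * 25) * (n : ℝ) ^ 2 =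
        (τ ^ 2 / 4) ^ 2 * e2 / (256 * 25) * (κ' * n) ^ 2 := by
      ring
    rw [e]
    refine (mul_le_mul_of_nonneg_left h1 (by positivity)).trans (le_of_eq ?_)
    ring
  · have e : κ' * e3 / (256 * 25) * n = e3 / (256 * 25) * (κ' * n) := by
      ring
    rw [e]
    refine (mul_le_mul_of_nonneg_left hTn (by positivity)).trans (le_of_eq ?_)
    ring

/-- the blocks -/
theorem cst_blk {κ' : ℝ} {n s R : ℕ} (hn1 : 2 * ((R : ℝ) + 8) ≤ κ' * n) (hsn : (s : ℝ) + κ' * n ≤ n) :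
    ∃ T : ℕ, 8 * T + s + R + 1 ≤ n ∧ κ' * n ≤ 16 * T := by
  have hsR : s + R + 1 ≤ n := by
    have h1 : ((s + R + 1 : ℕ) : ℝ) ≤ n := by
      push_cast
      have : (0 : ℝ) ≤ R := Nat.cast_nonneg _
      linarith
    exact_mod_cast h1
  refine ⟨(n - s - R - 1) / 8, by omega, ?_⟩
  have h1 : n ≤ 8 * ((n - s - R - 1) / 8) + s + R + 8 := by omega
  have h2 : (n : ℝ) ≤ 8 * (((n - s - R - 1) / 8 : ℕ) : ℝ) + s + R + 8 := by exact_mod_cast h1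
  linarith

/-- the blocks with a window -/
theorem cst_blkW {κ' κ al : ℝ} {n s R K : ℕ} (hκ'0 : 0 < κ') (hκ'a : 2 * κ' ≤ 1 - κ) (hκ'b : 2 * κ' ≤ 1 - al)
    (hKK : 16 / κ' ≤ K) (hn1 : 2 * ((R : ℝ) + 8) ≤ κ' * n) (hs : (s : ℝ) ≤ κ * n) :
    ∃ T M : ℕ, M + 8 * T + s + R + 1 ≤ n ∧ κ' * n ≤ 16 * T ∧ M ≤ K * T ∧ al * n ≤ M + 2 * T + s := by
  have hnn : (0 : ℝ) ≤ n := Nat.cast_nonneg _
  obtain ⟨T, hTd⟩ : ∃ T : ℕ, T = ⌊κ' * n / 8⌋₊ := ⟨_, rfl⟩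
  have hTa : (T : ℝ) ≤ κ' * n / 8 := by
    rw [hTd]
    exact Nat.floor_le (by positivity)
  have hTb : κ' * n / 8 < T + 1 := by
    rw [hTd]
    exact Nat.lt_floor_add_one _
  have hRr : (0 : ℝ) ≤ R := Nat.cast_nonneg _
  have hsn : (s : ℝ) + 2 * (κ' * n) ≤ n := by
    have := mul_le_mul_of_nonneg_right hκ'a hnn
    linarith
  have hsR : 8 * T + s + R + 1 ≤ n := by
    have h1 : ((8 * T + s + R + 1 : ℕ) : ℝ) ≤ n := by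
      push_cast
      linarith
    exact_mod_cast h1
  obtain ⟨M, hM⟩ : ∃ M : ℕ, M = n - s - R - 1 - 8 * T := ⟨_, rfl⟩
  have hTn : κ' * n ≤ 16 * T := by
    have h1 : (1 : ℝ) ≤ κ' * n / 16 := by linarith
    linarith
  refine ⟨T, M, by omega, hTn, ?_, ?_⟩
  · have h1 : (n : ℝ) ≤ K * T := by
      have h2 : 16 ≤ K * κ' := by
        rw [div_le_iff₀ hκ'0] at hKK
        linarith
      have h3 : κ' * (16 * n) ≤ κ' * (16 * (K * T)) := by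
        have h4 : 16 * (κ' * n) ≤ 16 * (16 * T) := by linarith
        have h5 : 16 * (16 * (T : ℝ)) ≤ K * κ' * (16 * T) := mul_le_mul_of_nonneg_right h2 (by positivity)
        linarith
      have h6 := le_of_mul_le_mul_left h3 hκ'0
      linarith
    have h2 : n ≤ K * T := by exact_mod_cast h1
    omega
  · have h1 : ((M + 2 * T + s : ℕ) : ℝ) = n - R - 1 - 6 * T := by
      have h2 : M + 2 * T + s + (R + 1 + 6 * T) = n := by omega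
      have h3 : ((M + 2 * T + s : ℕ) : ℝ) + (R + 1 + 6 * T) = n := by exact_mod_cast h2
      linarith
    push_cast at h1
    have h4 := mul_le_mul_of_nonneg_right hκ'b hnn
    linarith

end

end Pool.Agent.Helper92.W
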