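import Pool.Agent.Helper92.W.Fail

set_option autoImplicit false

namespace Pool.Agent.Helper92.W

open Finset Pool.Agent.Helper69.RK Pool.Agent.Helper61.GL Pool.Agent.Helper46.WF Pool.Agent.Helper97.WF

noncomputable section

/-- unsaturated paths: monotone in the error -/
theorem un_mono {Ω : Type} [Fintype Ω] {μ : Ω → ℝ} (hμ : ∀ ω, 0 ≤ μ ω) {z : Ω → ℝ} {n : ℕ} {c η η' : ℝ}
    (hη : η ≤ η') (h : Pw μ (fun ω => ∃ a b : ℕ, a ≤ b ∧ b ≤ n ∧ (1 - c) * ((b : ℝ) - a) + η * n <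
      srp μ (fun ω' => fl b (z ω')) (fun ω' => fl a (z ω')) ω) ≤ η) :
    Pw μ (fun ω => ∃ a b : ℕ, a ≤ b ∧ b ≤ n ∧ (1 - c) * ((b : ℝ) - a) + η' * n <
      srp μ (fun ω' => fl b (z ω')) (fun ω' => fl a (z ω')) ω) ≤ η' := by
  refine (Pw_mono μ hμ ?_).trans (h.trans hη)
  rintro ω _ ⟨a, b, h1, h2, h3⟩
  refine ⟨a, b, h1, h2, lt_of_le_of_lt ?_ h3⟩
  have := mul_le_mul_of_nonneg_right hη (Nat.cast_nonneg (α := ℝ) n)
  linarith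

theorem Cfg_mono {Ω : Type} [Fintype Ω] {n s : ℕ} {η η' c : ℝ} {μ : Ω → ℝ} {z : Ω → ℝ}
    {X Y : Ω → Fin 2 → ℝ} (hη : η ≤ η') (h : Cfg n s η c μ z X Y) : Cfg n s η' c μ z X Y := by
  have h1 := mul_le_mul_of_nonneg_right hη (Nat.cast_nonneg (α := ℝ) n)
  exact ⟨h.nn, h.ms, h.zb, h.xb, h.yb, h.ang, by have := h.i1; linarith, by have := h.i2; linarith,
    by have := h.i3; linarith, by have := h.tx; linarith, by have := h.ty; linarith, un_mono h.nn hη h.un⟩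

theorem Pw_or12 {Ω : Type} [Fintype Ω] {μ : Ω → ℝ} (hμ : ∀ ω, 0 ≤ μ ω) {δ : ℝ}
    (A : Fin 12 → Ω → Prop) (h : ∀ i, Pw μ (A i) ≤ δ) : Pw μ (fun ω => ∃ i, A i ω) ≤ 12 * δ := by
  classical
  have h1 : Pw μ (fun ω => ∃ i, A i ω) ≤ ∑ i, Pw μ (A i) := by
    unfold Pw
    rw [sum_comm]
    refine sum_le_sum fun ω _ => ?_
    split_ifs with h2
    · obtain ⟨i, hi⟩ := h2
      have h3 : (if A i ω then μ ω else 0) ≤ ∑ i, (if A i ω then μ ω else 0) :=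
        single_le_sum (f := fun i => if A i ω then μ ω else 0) (fun j _ => by
          split_ifs
          · exact hμ ω
          · exact le_rfl) (mem_univ i)
      rw [if_pos hi] at h3
      exact h3
    · exact sum_nonneg fun j _ => by
        split_ifs
        · exact hμ ω
        · exact le_rfl
  refine h1.trans ((sum_le_sum fun i _ => h i).trans (le_of_eq ?_))
  simp

theorem pick12 {Ω : Type} [Fintype Ω] {μ : Ω → ℝ} (hμ : ∀ ω, 0 ≤ μ ω) (hm : mass μ = 1) {δ : ℝ}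
    (hδ : 12 * δ < 1) {A0 A1 A2 A3 A4 A5 A6 A7 A8 A9 A10 A11 : Ω → Prop}
    (h0 : Pw μ A0 ≤ δ) (h1 : Pw μ A1 ≤ δ) (h2 : Pw μ A2 ≤ δ) (h3 : Pw μ A3 ≤ δ) (h4 : Pw μ A4 ≤ δ)
    (h5 : Pw μ A5 ≤ δ) (h6 : Pw μ A6 ≤ δ) (h7 : Pw μ A7 ≤ δ) (h8 : Pw μ A8 ≤ δ) (h9 : Pw μ A9 ≤ δ)
    (h10 : Pw μ A10 ≤ δ) (h11 : Pw μ A11 ≤ δ) :
    ∃ ω, μ ω ≠ 0 ∧ ¬ A0 ω ∧ ¬ A1 ω ∧ ¬ A2 ω ∧ ¬ A3 ω ∧ ¬ A4 ω ∧ ¬ A5 ω ∧ ¬ A6 ω ∧ ¬ A7 ω ∧ ¬ A8 ω ∧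
      ¬ A9 ω ∧ ¬ A10 ω ∧ ¬ A11 ω := by
  obtain ⟨A, hA⟩ : ∃ A : Fin 12 → Ω → Prop, A = ![A0, A1, A2, A3, A4, A5, A6, A7, A8, A9, A10, A11] :=
    ⟨_, rfl⟩
  have hall := Pw_or12 hμ (δ := δ) A (by
    intro i
    rw [hA]
    fin_cases i
    · exact h0
    · exact h1
    · exact h2
    · exact h3
    · exact h4
    · exact h5
    · exact h6
    · exact h7
    · exact h8
    · exact h9
    · exact h10
    · exact h11)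
  have hpos := Pw_compl μ (by unfold mass at hm; exact hm) (fun ω => ∃ i, A i ω)
  obtain ⟨ω, hω0, hω⟩ := Pw_exists μ (lt_of_lt_of_eq (by linarith) hpos.symm)
  have hω' := not_exists.1 hω
  rw [hA] at hω'
  exact ⟨ω, hω0, hω' 0, hω' 1, hω' 2, hω' 3, hω' 4, hω' 5, hω' 6, hω' 7, hω' 8, hω' 9, hω' 10, hω' 11⟩

end

end Pool.Agent.Helper92.W
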