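import Pool.Agent.Helper92.W.Det

set_option autoImplicit false

namespace Pool.Agent.Helper92.W

open Finset Pool.Agent.Helper69.RK Pool.Agent.Helper61.GL Pool.Agent.Helper46.WF Pool.Agent.Helper97.WF

noncomputable section

/-- unit directions -/
abbrev Dir : Type := {θ : Fin 2 → ℝ // θ 0 ^ 2 + θ 1 ^ 2 = 1}

/-- distance of directions -/
def dd (a b : Dir) : ℝ := |om a.1 b.1|

theorem dd_symm (a b : Dir) : dd a b = dd b a := by
  unfold dd
  rw [om_swap, abs_neg]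

theorem dd_self (a : Dir) : dd a a = 0 := by
  unfold dd om
  rw [mul_comm, sub_self, abs_zero]

theorem dd_tri (a b c : Dir) : dd a c ≤ dd a b + dd b c := om_tri a.2 b.2 c.2

theorem dd_le (a b : Dir) : dd a b ≤ 1 := om_unit_le a.2 b.2

variable {Ω : Type} [Fintype Ω]

/-- good pairs of levels -/
def GG (R1 R : ℕ) (τ : ℝ) (μ : Ω → ℝ) (X Y : Ω → Fin 2 → ℝ) (ω : Ω) (l j : ℕ) : Prop :=
  sl μ Y X j l R ω ≤ (τ ^ 2 / 4) ^ 2 ∧ (1 - 1 / 16) * (R : ℝ) ≤ eL μ X R l ω ∧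
    (1 - 1 / 16) * (R : ℝ) ≤ eL μ Y R j ω ∧ (1 - 1 / 16) * (R1 : ℝ) ≤ eL μ X R1 l ω ∧
    (1 - 1 / 16) * (R1 : ℝ) ≤ eL μ Y R1 j ω

open Classical in
/-- the direction of a pair of levels -/
def thh (τ r : ℝ) (μ : Ω → ℝ) (X Y : Ω → Fin 2 → ℝ) (ω : Ω) (l j : ℕ) : Dir :=
  if h : ∃ θ : Dir, Str (lw μ X l ω) (fun ω' => fr l (X ω')) θ.1 r (τ ^ 2) ∧
      Str (lw μ Y j ω) (fun ω' => fr j (Y ω')) θ.1 r (τ ^ 2) then h.choose
  else ⟨![1, 0], by simp⟩

/-- specialised facts about one pair of cells -/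
structure Geo (R1 R : ℕ) (τ r : ℝ) : Prop where
  g2 : ∀ (Ω Ω' : Type) [Fintype Ω] [Fintype Ω'] (w : Ω → ℝ) (V : Ω → Fin 2 → ℝ) (w' : Ω' → ℝ)
    (Y : Ω' → Fin 2 → ℝ), (∀ ω, 0 ≤ w ω) → ∑ ω, w ω = 1 → (∀ ω, w ω ≠ 0 → ∀ i, 0 ≤ V ω i ∧ V ω i < 1) →
    (∀ ω, 0 ≤ w' ω) → ∑ ω, w' ω = 1 → (∀ ω, w' ω ≠ 0 → ∀ i, 0 ≤ Y ω i ∧ Y ω i < 1) →
    nas w V w' Y R ≤ (τ ^ 2 / 4) ^ 2 →
    (1 - 1 / 16) * R ≤ Hh w (fun ω => cel R (V ω)) → (1 - 1 / 16) * R ≤ Hh w' (fun ω => cel R (Y ω)) →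
    (R1 : ℝ) / 2 ≤ Hh w' (fun ω => cel R1 (Y ω)) →
    ∃ θ : Fin 2 → ℝ, θ 0 ^ 2 + θ 1 ^ 2 = 1 ∧ Str w V θ r (τ ^ 2) ∧ Str w' Y θ r (τ ^ 2)
  g3 : ∀ (Ω : Type) [Fintype Ω] (w : Ω → ℝ) (V : Ω → Fin 2 → ℝ),
    (∀ ω, 0 ≤ w ω) → ∑ ω, w ω = 1 → (∀ ω, w ω ≠ 0 → ∀ i, 0 ≤ V ω i ∧ V ω i < 1) →
    (R1 : ℝ) / 2 ≤ Hh w (fun ω => cel R1 (V ω)) →
    ∀ (θ θ' : Fin 2 → ℝ) (r : ℝ), θ 0 ^ 2 + θ 1 ^ 2 = 1 → θ' 0 ^ 2 + θ' 1 ^ 2 = 1 → 0 < r →
    Str w V θ r (1 / 16) → Str w V θ' r (1 / 16) → |om θ θ'| ≤ 2 ^ (R1 + 4) * r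
  g5 : ∀ (Ω : Type) [Fintype Ω] (w : Ω → ℝ) (V : Ω → Fin 2 → ℝ),
    (∀ ω, 0 ≤ w ω) → ∑ ω, w ω = 1 → (∀ ω, w ω ≠ 0 → ∀ i, 0 ≤ V ω i ∧ V ω i < 1) →
    (R1 : ℝ) / 2 ≤ Hh w (fun ω => cel R1 (V ω)) →
    ∀ (θ U : Fin 2 → ℝ), θ 0 ^ 2 + θ 1 ^ 2 = 1 → (∀ i, |U i| ≤ 32) →
    Str w V θ r (1 / 16) → na w V ((1 / 2) ^ R) U ≤ 1 / 16 → |om θ U| ≤ 2 ^ (R1 + 10) * (r + (1 / 2) ^ R)

theorem thh_spec {R1 R : ℕ} {τ r : ℝ} (hg : Geo R1 R τ r) {μ : Ω → ℝ} (hμ : ∀ ω, 0 ≤ μ ω)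
    {X Y : Ω → Fin 2 → ℝ} {ω : Ω} (hs : μ ω ≠ 0) {l j : ℕ} (h : GG R1 R τ μ X Y ω l j) :
    Str (lw μ X l ω) (fun ω' => fr l (X ω')) (thh τ r μ X Y ω l j).1 r (τ ^ 2) ∧
      Str (lw μ Y j ω) (fun ω' => fr j (Y ω')) (thh τ r μ X Y ω l j).1 r (τ ^ 2) := by
  obtain ⟨h1, h2, h3, h4, h5⟩ := h
  have hex : ∃ θ : Dir, Str (lw μ X l ω) (fun ω' => fr l (X ω')) θ.1 r (τ ^ 2) ∧
      Str (lw μ Y j ω) (fun ω' => fr j (Y ω')) θ.1 r (τ ^ 2) := by
    have hR1 : (0 : ℝ) ≤ R1 := Nat.cast_nonneg _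
    obtain ⟨θ, ha, hb, hc⟩ := hg.g2 Ω Ω (lw μ Y j ω) (fun ω' => fr j (Y ω')) (lw μ X l ω)
      (fun ω' => fr l (X ω')) (lw_nonneg hμ Y j ω) (lw_sum hμ Y j hs) (fun ω' _ => fr_mem _ _)
      (lw_nonneg hμ X l ω) (lw_sum hμ X l hs) (fun ω' _ => fr_mem _ _) h1 h3 h2
      (by
        have : eL μ X R1 l ω = Hh (lw μ X l ω) (fun ω' => cel R1 (fr l (X ω'))) := rfl
        rw [← this]
        linarith)
    exact ⟨⟨θ, ha⟩, hc, hb⟩
  unfold thh
  rw [dif_pos hex]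
  exact hex.choose_spec

open Classical in
theorem pth_false {T s R1 R R' : ℕ} {c θ τ e2 e3 r : ℝ} {μ : Ω → ℝ} {z : Ω → ℝ}
    {X Y : Ω → Fin 2 → ℝ} {ω : Ω} (hμ : ∀ ω, 0 ≤ μ ω) (h : Pth T s R1 R R' c θ τ e2 e3 r μ z X Y ω)
    (hg : Geo R1 R τ r) (hX : ∀ i, |X ω i| ≤ 32) (hY : ∀ i, |Y ω i| ≤ 32) (hang : 1 / 8 ≤ |om (X ω) (Y ω)|)
    (hc : 0 < c) (hθ : 0 < θ) (hT : 1 ≤ T) (h1 : 1 ≤ θ * T) (hτ : 0 < τ)
    (hτ2 : τ ≤ 1 / 16) (he2 : 2 * e2 ≤ c / 4 * θ ^ 2) (hr : 0 < r) (hR1 : 0 < R1) (hR : 0 < R)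
    (hbig1 : 16 + 8 * (τ ^ 2 / 4) * R1 ≤ θ * R1) (hbig : 16 + 8 * (τ ^ 2 / 4) * R ≤ θ * R)
    (θd : ℝ) (hθd : θd = (64 * K1 c + 1) * θ) (hθd2 : θd ≤ 1 / 2) (w : ℝ) (hw : w = 2 ^ (R1 + 6) * r)
    (hcnt : 3 * θd + ((264 / (c / 8) + 3) * (10 * w + 3 * θd) + 2 * θd) * 2 ^ 20 + e3 < 3 * (c / 4))
    (hsmall : 2 ^ (R1 + 10) * (r + (1 / 2) ^ R) + 64 * ((1 / 2) ^ 20 + w) < 1 / 1024) : False := by
  have hs := h.sup
  have hT' : (1 : ℝ) ≤ T := by exact_mod_cast hT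
  have hK1 : 0 < K1 c := by unfold K1; positivity
  have hθθd : θ ≤ θd := by
    have h0 := mul_pos hK1 hθ
    have e0 : (64 * K1 c + 1) * θ = 64 * (K1 c * θ) + θ := by ring
    rw [hθd, e0]
    linarith only [h0]
  have hθ2 : θ ≤ 1 / 2 := hθθd.trans hθd2
  have hR1' : (0 : ℝ) < R1 := by exact_mod_cast hR1
  have hR' : (0 : ℝ) < R := by exact_mod_cast hR
  have hτsq : τ ^ 2 ≤ 1 / 16 := by
    have h0 := mul_le_mul_of_nonneg_left hτ2 hτ.le
    have e0 : τ ^ 2 = τ * τ := by ring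
    rw [e0]
    linarith only [h0, hτ2]
  have hw0 : 0 ≤ w := by rw [hw]; positivity
  have hp : (2 : ℝ) ^ (R1 + 6) = 4 * 2 ^ (R1 + 4) := by
    rw [show R1 + 6 = (R1 + 4) + 2 by ring, pow_add]
    ring
  have hp0 : (0 : ℝ) < 2 ^ (R1 + 4) := by positivity
  -- entropies
  obtain ⟨a1, a2⟩ := ent_close hμ h hc hθ hθ2 hT h1 hτ he2 (Or.inl rfl) hbig1
  obtain ⟨a3, a4⟩ := ent_close hμ h hc hθ hθ2 hT h1 hτ he2 (Or.inr rfl) hbig
  have b1 := ent_card (K := K1 c * θ) hR1 (E := fun l => eL μ X R1 l ω) (a1.trans (le_of_eq (by ring)))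
  have b2 := ent_card (K := K1 c * θ) hR1 (E := fun l => eL μ Y R1 l ω) (a2.trans (le_of_eq (by ring)))
  have b3 := ent_card (K := K1 c * θ) hR (E := fun l => eL μ X R l ω) (a3.trans (le_of_eq (by ring)))
  have b4 := ent_card (K := K1 c * θ) hR (E := fun l => eL μ Y R l ω) (a4.trans (le_of_eq (by ring)))
  -- entropy of the small window is at least half
  have hhalf : ∀ {Z : Ω → Fin 2 → ℝ} {l : ℕ}, (1 - 1 / 16) * (R1 : ℝ) ≤ eL μ Z R1 l ω →
      (R1 : ℝ) / 2 ≤ Hh (lw μ Z l ω) (fun ω' => cel R1 (fr l (Z ω'))) := by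
    intro Z l hZ
    have : eL μ Z R1 l ω = Hh (lw μ Z l ω) (fun ω' => cel R1 (fr l (Z ω'))) := rfl
    rw [← this]
    linarith
  have huniq : ∀ {Z : Ω → Fin 2 → ℝ} {l : ℕ}, (1 - 1 / 16) * (R1 : ℝ) ≤ eL μ Z R1 l ω →
      ∀ (α β : Fin 2 → ℝ) (q : ℝ), α 0 ^ 2 + α 1 ^ 2 = 1 → β 0 ^ 2 + β 1 ^ 2 = 1 → 0 < q →
      Str (lw μ Z l ω) (fun ω' => fr l (Z ω')) α q (1 / 16) →
      Str (lw μ Z l ω) (fun ω' => fr l (Z ω')) β q (1 / 16) → |om α β| ≤ 2 ^ (R1 + 4) * q := by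
    intro Z l hZ α β q hα hβ hq
    exact hg.g3 Ω (lw μ Z l ω) (fun ω' => fr l (Z ω')) (lw_nonneg hμ Z l ω) (lw_sum hμ Z l hs)
      (fun ω' _ => fr_mem _ _) (hhalf hZ) α β q hα hβ hq
  -- the directions
  obtain ⟨x0, c1, c2⟩ := dir_core dd (fun _ _ => abs_nonneg _) dd_le dd_self dd_symm dd_tri
    (c / 8) (by positivity) T θd w hw0 hθd2 (h1.trans (mul_le_mul_of_nonneg_right hθθd (by linarith)))
    (GG R1 R τ μ X Y ω) (thh τ r μ X Y ω) (BB T s R R' c θ τ μ z X Y ω)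
    (by
      intro l j j' hG hG'
      obtain ⟨s1, _⟩ := thh_spec hg hμ hs hG
      obtain ⟨s2, _⟩ := thh_spec hg hμ hs hG'
      have := huniq hG.2.2.2.1 _ _ r (thh τ r μ X Y ω l j).2 (thh τ r μ X Y ω l j').2 hr
        (Str_mono (lw_nonneg hμ X l ω) le_rfl hτsq s1) (Str_mono (lw_nonneg hμ X l ω) le_rfl hτsq s2)
      unfold dd
      rw [hw, hp]
      have h3 : 0 < 2 ^ (R1 + 4) * r := by positivity
      linarith)
    (by
      intro l l' j hG hG'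
      obtain ⟨_, s1⟩ := thh_spec hg hμ hs hG
      obtain ⟨_, s2⟩ := thh_spec hg hμ hs hG'
      have := huniq hG.2.2.2.2 _ _ r (thh τ r μ X Y ω l j).2 (thh τ r μ X Y ω l' j).2 hr
        (Str_mono (lw_nonneg hμ Y j ω) le_rfl hτsq s1) (Str_mono (lw_nonneg hμ Y j ω) le_rfl hτsq s2)
      unfold dd
      rw [hw, hp]
      have h3 : 0 < 2 ^ (R1 + 4) * r := by positivity
      linarith)
    (by
      refine le_trans ?_ (h.inh.trans (mul_le_mul_of_nonneg_right hθθd (by linarith)))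
      have hsub : ((range (4 * T)).filter (fun l => ¬ ∀ j j', GG R1 R τ μ X Y ω l j →
          GG R1 R τ μ X Y ω (l + 1) j' →
          dd (thh τ r μ X Y ω l j) (thh τ r μ X Y ω (l + 1) j') ≤ w)) ⊆
        (range (4 * T)).filter (fun l =>
          Str (lw μ X l ω) (fun ω' => fr l (X ω')) (hat (lw μ X l ω) (fun ω' => fr l (X ω')) r (τ ^ 2)) r (τ ^ 2) ∧
          ¬ Str (lw μ X (l + 1) ω) (fun ω' => fr (l + 1) (X ω'))
            (hat (lw μ X l ω) (fun ω' => fr l (X ω')) r (τ ^ 2)) (2 * r) τ) := by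
        intro l hl
        rw [mem_filter] at hl ⊢
        refine ⟨hl.1, ?_⟩
        by_contra hcon
        apply hl.2
        intro j j' hG hG'
        obtain ⟨s1, _⟩ := thh_spec hg hμ hs hG
        obtain ⟨s2, _⟩ := thh_spec hg hμ hs hG'
        have hu := hat_unit (lw μ X l ω) (fun ω' => fr l (X ω')) r (τ ^ 2)
        have s3 := hat_str (thh τ r μ X Y ω l j).2 s1
        have s4 : Str (lw μ X (l + 1) ω) (fun ω' => fr (l + 1) (X ω'))
            (hat (lw μ X l ω) (fun ω' => fr l (X ω')) r (τ ^ 2)) (2 * r) τ := by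
          by_contra h5
          exact hcon ⟨s3, h5⟩
        have d1 := huniq hG.2.2.2.1 _ _ r (thh τ r μ X Y ω l j).2 hu hr
          (Str_mono (lw_nonneg hμ X l ω) le_rfl hτsq s1) (Str_mono (lw_nonneg hμ X l ω) le_rfl hτsq s3)
        have d2 := huniq hG'.2.2.2.1 _ _ (2 * r) hu (thh τ r μ X Y ω (l + 1) j').2 (by linarith)
          (Str_mono (lw_nonneg hμ X (l + 1) ω) le_rfl hτ2 s4)
          (Str_mono (lw_nonneg hμ X (l + 1) ω) (by linarith) hτsq s2)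
        have d3 := om_tri (thh τ r μ X Y ω l j).2 hu (thh τ r μ X Y ω (l + 1) j').2
        unfold dd
        rw [hw, hp]
        have h3 : 0 < 2 ^ (R1 + 4) * r := by positivity
        have e4 : 2 ^ (R1 + 4) * (2 * r) = 2 * (2 ^ (R1 + 4) * r) := by ring
        rw [e4] at d2
        linarith
      exact_mod_cast card_le_card hsub)
    (by
      intro N hN hN1 hN2
      unfold BB at hN
      have f1 := (mem_filter.1 hN).2
      have f2 := card_restrict T N hN2 (fun l => eL μ X R l ω < (1 - 1 / 16) * (R : ℝ))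
      have f3 := card_reflect T N hN2 (fun l => eL μ Y R l ω < (1 - 1 / 16) * (R : ℝ))
      have f4 := card_restrict T N hN2 (fun l => eL μ X R1 l ω < (1 - 1 / 16) * (R1 : ℝ))
      have f5 := card_reflect T N hN2 (fun l => eL μ Y R1 l ω < (1 - 1 / 16) * (R1 : ℝ))
      have hsub : (range (N + 1)).filter (fun l => ¬ GG R1 R τ μ X Y ω l (N - l)) ⊆
          ((range (N + 1)).filter (fun l => (τ ^ 2 / 4) ^ 2 < sl μ Y X (N - l) l R ω)) ∪
          (((range (N + 1)).filter (fun l => eL μ X R l ω < (1 - 1 / 16) * (R : ℝ))) ∪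
          (((range (N + 1)).filter (fun l => eL μ Y R (N - l) ω < (1 - 1 / 16) * (R : ℝ))) ∪
          (((range (N + 1)).filter (fun l => eL μ X R1 l ω < (1 - 1 / 16) * (R1 : ℝ))) ∪
          ((range (N + 1)).filter (fun l => eL μ Y R1 (N - l) ω < (1 - 1 / 16) * (R1 : ℝ)))))) := by
        intro l hl
        rw [mem_filter] at hl
        simp only [mem_union, mem_filter]
        by_contra hcon
        push Not at hcon
        obtain ⟨k1, k2, k3, k4, k5⟩ := hcon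
        exact hl.2 ⟨k1 hl.1, k2 hl.1, k3 hl.1, k4 hl.1, k5 hl.1⟩
      have f6 := (card_le_card hsub).trans ((card_union_le _ _).trans (Nat.add_le_add_left
        ((card_union_le _ _).trans (Nat.add_le_add_left ((card_union_le _ _).trans
          (Nat.add_le_add_left (card_union_le _ _) _)) _)) _))
      have f7 : (((range (N + 1)).filter (fun l => ¬ GG R1 R τ μ X Y ω l (N - l))).card : ℝ) ≤
          (((range (N + 1)).filter (fun l => (τ ^ 2 / 4) ^ 2 < sl μ Y X (N - l) l R ω)).card : ℝ) +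
          ((((range (5 * T)).filter (fun l => eL μ X R l ω < (1 - 1 / 16) * (R : ℝ))).card : ℝ) +
          ((((range (5 * T)).filter (fun l => eL μ Y R l ω < (1 - 1 / 16) * (R : ℝ))).card : ℝ) +
          ((((range (5 * T)).filter (fun l => eL μ X R1 l ω < (1 - 1 / 16) * (R1 : ℝ))).card : ℝ) +
          (((range (5 * T)).filter (fun l => eL μ Y R1 l ω < (1 - 1 / 16) * (R1 : ℝ))).card : ℝ)))) := by
        have g2 : (((range (N + 1)).filter (fun l => ¬ GG R1 R τ μ X Y ω l (N - l))).card : ℝ) ≤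
            ((range (N + 1)).filter (fun l => (τ ^ 2 / 4) ^ 2 < sl μ Y X (N - l) l R ω)).card +
            ((((range (N + 1)).filter (fun l => eL μ X R l ω < (1 - 1 / 16) * (R : ℝ))).card : ℝ) +
            ((((range (N + 1)).filter (fun l => eL μ Y R (N - l) ω < (1 - 1 / 16) * (R : ℝ))).card : ℝ) +
            ((((range (N + 1)).filter (fun l => eL μ X R1 l ω < (1 - 1 / 16) * (R1 : ℝ))).card : ℝ) +
            (((range (N + 1)).filter (fun l => eL μ Y R1 (N - l) ω < (1 - 1 / 16) * (R1 : ℝ))).card : ℝ)))) := by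
          exact_mod_cast f6
        have g3 : (((range (N + 1)).filter (fun l => eL μ X R l ω < (1 - 1 / 16) * (R : ℝ))).card : ℝ) ≤
            (((range (5 * T)).filter (fun l => eL μ X R l ω < (1 - 1 / 16) * (R : ℝ))).card : ℝ) := by
          exact_mod_cast f2
        have g4 : (((range (N + 1)).filter (fun l => eL μ Y R (N - l) ω < (1 - 1 / 16) * (R : ℝ))).card : ℝ) ≤
            (((range (5 * T)).filter (fun l => eL μ Y R l ω < (1 - 1 / 16) * (R : ℝ))).card : ℝ) := by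
          exact_mod_cast f3
        have g5 : (((range (N + 1)).filter (fun l => eL μ X R1 l ω < (1 - 1 / 16) * (R1 : ℝ))).card : ℝ) ≤
            (((range (5 * T)).filter (fun l => eL μ X R1 l ω < (1 - 1 / 16) * (R1 : ℝ))).card : ℝ) := by
          exact_mod_cast f4
        have g6 : (((range (N + 1)).filter (fun l => eL μ Y R1 (N - l) ω < (1 - 1 / 16) * (R1 : ℝ))).card : ℝ) ≤
            (((range (5 * T)).filter (fun l => eL μ Y R1 l ω < (1 - 1 / 16) * (R1 : ℝ))).card : ℝ) := by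
          exact_mod_cast f5
        linarith
      refine f7.trans ?_
      rw [hθd]
      have e : (64 * K1 c + 1) * θ * T = θ * T + 4 * (16 * (K1 c * θ) * T) := by ring
      rw [e]
      linarith)
    (fun a b ha hab hb hab2 => BB_dense h hθ hT he2 (Or.inr rfl) a b ha hab hb
      ((mul_le_mul_of_nonneg_right hθθd (by linarith)).trans hab2)) ((1 / 2) ^ 20) (by positivity)
  -- END
  set K3 : ℝ := 3 * θd + ((264 / (c / 8) + 3) * (10 * w + 3 * θd) + 2 * θd) * 2 ^ 20 with hK3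
  have hK3' : (3 * θd + ((264 / (c / 8) + 3) * (10 * w + 3 * θd) + 2 * θd) / (1 / 2) ^ 20) = K3 := by
    rw [hK3]
    have : ∀ x : ℝ, x / (1 / 2) ^ 20 = x * 2 ^ 20 := by
      intro x
      rw [one_div, inv_pow, div_inv_eq_mul]
    rw [this]
  rw [hK3'] at c1 c2
  have hden := h.den R (Or.inr rfl) (2 * T) (5 * T) le_rfl (by omega) le_rfl (by
    push_cast
    have h0 := mul_le_mul_of_nonneg_right hθ2 (show (0 : ℝ) ≤ T by linarith only [hT'])
    linarith only [h0, hT'])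
  -- a general selection principle
  have sel : ∀ (P Q : ℕ → Prop), (∀ S : Finset ℕ, (∀ j ∈ S, j < 5 * T ∧ ¬ P j) → (S.card : ℝ) ≤ K3 * T) →
      (∀ S : Finset ℕ, (∀ j ∈ S, j < 5 * T ∧ DL μ z c R' (j + s + (R + 1)) ω ∧ ¬ Q j) →
        (S.card : ℝ) ≤ e3 * T) →
      ∃ j, DL μ z c R' (j + s + (R + 1)) ω ∧ P j ∧ Q j := by
    intro P Q hP hQ
    by_contra hcon
    push Not at hcon
    have hsub : (Ico (2 * T) (5 * T)).filter (fun N => DL μ z c R' (N + s + (R + 1)) ω) ⊆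
        ((range (5 * T)).filter (fun j => ¬ P j)) ∪
        ((range (5 * T)).filter (fun j => DL μ z c R' (j + s + (R + 1)) ω ∧ ¬ Q j)) := by
      intro j hj
      rw [mem_filter, mem_Ico] at hj
      rw [mem_union, mem_filter, mem_filter, mem_range]
      by_cases h2 : P j
      · exact Or.inr ⟨hj.1.2, hj.2, hcon j hj.2 h2⟩
      · exact Or.inl ⟨hj.1.2, h2⟩
    have h2 := (card_le_card hsub).trans (card_union_le _ _)
    have h3 : (((Ico (2 * T) (5 * T)).filter (fun N => DL μ z c R' (N + s + (R + 1)) ω)).card : ℝ) ≤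
        (((range (5 * T)).filter (fun j => ¬ P j)).card : ℝ) +
        (((range (5 * T)).filter (fun j => DL μ z c R' (j + s + (R + 1)) ω ∧ ¬ Q j)).card : ℝ) := by
      exact_mod_cast h2
    have h3a := hP ((range (5 * T)).filter (fun j => ¬ P j)) (fun j hj => by
      rw [mem_filter, mem_range] at hj
      exact hj)
    have h3b := hQ ((range (5 * T)).filter (fun j => DL μ z c R' (j + s + (R + 1)) ω ∧ ¬ Q j))
      (fun j hj => by
        rw [mem_filter, mem_range] at hj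
        exact hj)
    have h4 : c / 4 * (((5 * T : ℕ) : ℝ) - ((2 * T : ℕ) : ℝ)) = 3 * (c / 4) * T := by
      push_cast
      ring
    rw [h4] at hden
    have h5 : (K3 + e3) * T < 3 * (c / 4) * T := mul_lt_mul_of_pos_right hcnt (by linarith)
    linarith
  rcases om_off x0.2 hX hY hang with hoff | hoff
  · -- `X` is off the direction: use the cells of `Y`
    obtain ⟨j, hj1, ⟨⟨l, hl⟩, hj2⟩, hj3⟩ := sel
      (fun j => (∃ l, GG R1 R τ μ X Y ω l j) ∧ ∀ l, GG R1 R τ μ X Y ω l j →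
        dd (thh τ r μ X Y ω l j) x0 ≤ (1 / 2) ^ 20 + w)
      (fun j => nl μ Y j R (X ω) ω ≤ 1 / 16) (by
        intro S hS
        refine le_trans ?_ c2
        refine Nat.cast_le.2 (card_le_card ?_)
        intro j hj
        rw [mem_filter, mem_range]
        exact hS j hj)
      (by
        intro S hS
        refine le_trans ?_ h.refX
        refine Nat.cast_le.2 (card_le_card ?_)
        intro j hj
        rw [mem_filter, mem_range]
        exact ⟨(hS j hj).1, (hS j hj).2.1, not_le.1 (hS j hj).2.2⟩)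
    have d1 := hj2 l hl
    obtain ⟨_, s1⟩ := thh_spec hg hμ hs hl
    have d2 := hg.g5 Ω (lw μ Y j ω) (fun ω' => fr j (Y ω')) (lw_nonneg hμ Y j ω) (lw_sum hμ Y j hs)
      (fun ω' _ => fr_mem _ _) (hhalf hl.2.2.2.2) _ (X ω) (thh τ r μ X Y ω l j).2 hX
      (Str_mono (lw_nonneg hμ Y j ω) le_rfl hτsq s1) hj3
    have d3 := om_change x0.2 (thh τ r μ X Y ω l j).2 hX
    unfold dd at d1
    have d4 := mul_le_mul_of_nonneg_left d1 (show (0 : ℝ) ≤ 64 by norm_num)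
    linarith
  · obtain ⟨l, hj1, ⟨⟨j, hl⟩, hj2⟩, hj3⟩ := sel
      (fun l => (∃ j, GG R1 R τ μ X Y ω l j) ∧ ∀ j, GG R1 R τ μ X Y ω l j →
        dd (thh τ r μ X Y ω l j) x0 ≤ (1 / 2) ^ 20 + w)
      (fun l => nl μ X l R (Y ω) ω ≤ 1 / 16) (by
        intro S hS
        refine le_trans ?_ c1
        refine Nat.cast_le.2 (card_le_card ?_)
        intro j hj
        rw [mem_filter, mem_range]
        exact hS j hj)
      (by
        intro S hS
        refine le_trans ?_ h.refY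
        refine Nat.cast_le.2 (card_le_card ?_)
        intro j hj
        rw [mem_filter, mem_range]
        exact ⟨(hS j hj).1, (hS j hj).2.1, not_le.1 (hS j hj).2.2⟩)
    have d1 := hj2 j hl
    obtain ⟨s1, _⟩ := thh_spec hg hμ hs hl
    have d2 := hg.g5 Ω (lw μ X l ω) (fun ω' => fr l (X ω')) (lw_nonneg hμ X l ω) (lw_sum hμ X l hs)
      (fun ω' _ => fr_mem _ _) (hhalf hl.2.2.2.1) _ (Y ω) (thh τ r μ X Y ω l j).2 hY
      (Str_mono (lw_nonneg hμ X l ω) le_rfl hτsq s1) hj3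
    have d3 := om_change x0.2 (thh τ r μ X Y ω l j).2 hY
    unfold dd at d1
    have d4 := mul_le_mul_of_nonneg_left d1 (show (0 : ℝ) ≤ 64 by norm_num)
    linarith

end

end Pool.Agent.Helper92.W
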