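import Pool.Agent.Helper92.W.Path

set_option autoImplicit false

namespace Pool.Agent.Helper92.W

open Finset Pool.Agent.Helper69.RK Pool.Agent.Helper61.GL Pool.Agent.Helper46.WF Pool.Agent.Helper97.WF

noncomputable section

open Classical in
/-- properties of one path -/
structure Pth (T s R1 R R' : ℕ) (c θ τ e2 e3 r : ℝ) {Ω : Type} [Fintype Ω] (μ : Ω → ℝ) (z : Ω → ℝ)
    (X Y : Ω → Fin 2 → ℝ) (ω : Ω) : Prop where
  sup : μ ω ≠ 0
  den : ∀ ρ, (ρ = R1 ∨ ρ = R) → ∀ a b : ℕ, 2 * T ≤ a → a ≤ b → b ≤ 5 * T → θ * T ≤ (b : ℝ) - a →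
    c / 4 * ((b : ℝ) - a) ≤ (((Ico a b).filter (fun N => DL μ z c R' (N + s + (ρ + 1)) ω)).card : ℝ)
  preX : ∀ ρ : ℕ, (ρ = R1 ∨ ρ = R) → ∀ N : ℕ, N ≤ 8 * T →
    (ρ : ℝ) * N - θ * ρ * T ≤ ∑ l ∈ range N, eL μ X ρ l ω
  preY : ∀ ρ : ℕ, (ρ = R1 ∨ ρ = R) → ∀ N : ℕ, N ≤ 8 * T →
    (ρ : ℝ) * N - θ * ρ * T ≤ ∑ l ∈ range N, eL μ Y ρ l ω
  slo : ∀ ρ : ℕ, (ρ = R1 ∨ ρ = R) → (((range (4 * T)).filter (fun l =>
    θ * ρ < |eL μ X ρ l ω - eL μ X ρ (l + 1) ω|)).card : ℝ) ≤ θ * T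
  clo : ∀ ρ : ℕ, (ρ = R1 ∨ ρ = R) →
    ∑ N ∈ (range (5 * T)).filter (fun N => DL μ z c R' (N + s + (ρ + 1)) ω),
      (((range (N + 1)).filter (fun l => (τ ^ 2 / 4) ^ 2 < sl μ Y X (N - l) l ρ ω)).card : ℝ) ≤ e2 * (T : ℝ) ^ 2
  refX : (((range (5 * T)).filter (fun j => DL μ z c R' (j + s + (R + 1)) ω ∧
    1 / 16 < nl μ Y j R (X ω) ω)).card : ℝ) ≤ e3 * T
  refY : (((range (5 * T)).filter (fun l => DL μ z c R' (l + s + (R + 1)) ω ∧
    1 / 16 < nl μ X l R (Y ω) ω)).card : ℝ) ≤ e3 * T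
  inh : (((range (4 * T)).filter (fun l =>
    Str (lw μ X l ω) (fun ω' => fr l (X ω')) (hat (lw μ X l ω) (fun ω' => fr l (X ω')) r (τ ^ 2)) r (τ ^ 2) ∧
    ¬ Str (lw μ X (l + 1) ω) (fun ω' => fr (l + 1) (X ω'))
      (hat (lw μ X l ω) (fun ω' => fr l (X ω')) r (τ ^ 2)) (2 * r) τ)).card : ℝ) ≤ θ * T

variable {Ω : Type} [Fintype Ω]

open Classical in
/-- the good antidiagonals for the window `ρ` -/
def BB (T s ρ R' : ℕ) (c θ τ : ℝ) (μ : Ω → ℝ) (z : Ω → ℝ) (X Y : Ω → Fin 2 → ℝ) (ω : Ω) : Finset ℕ :=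
  ((range (5 * T)).filter (fun N => DL μ z c R' (N + s + (ρ + 1)) ω)).filter (fun N =>
    (((range (N + 1)).filter (fun l => (τ ^ 2 / 4) ^ 2 < sl μ Y X (N - l) l ρ ω)).card : ℝ) ≤ θ * T)

/-- the constant of the numeric core -/
def K1 (c : ℝ) : ℝ := 52 * (264 / (c / 8) + 3) + 4

theorem BB_dense {T s R1 R R' ρ : ℕ} {c θ τ e2 e3 r : ℝ} {μ : Ω → ℝ} {z : Ω → ℝ}
    {X Y : Ω → Fin 2 → ℝ} {ω : Ω} (h : Pth T s R1 R R' c θ τ e2 e3 r μ z X Y ω) (hθ : 0 < θ) (hT : 1 ≤ T)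
    (he2 : 2 * e2 ≤ c / 4 * θ ^ 2) (hρ : ρ = R1 ∨ ρ = R) :
    ∀ a b : ℕ, 2 * T ≤ a → a ≤ b → b ≤ 5 * T → θ * T ≤ (b : ℝ) - a →
      c / 8 * ((b : ℝ) - a) ≤ (((BB T s ρ R' c θ τ μ z X Y ω).filter (fun N => a ≤ N ∧ N < b)).card : ℝ) := by
  classical
  intro a b ha hab hb hθab
  have h1 := dense_tot (c / 4) θ e2 hθ T hT he2
    ((range (5 * T)).filter (fun N => DL μ z c R' (N + s + (ρ + 1)) ω))
    (fun l j => (τ ^ 2 / 4) ^ 2 < sl μ Y X j l ρ ω) (by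
      intro a b ha hab hb hθab
      refine (h.den ρ hρ a b ha hab hb hθab).trans (le_of_eq ?_)
      congr 2
      ext N
      simp only [mem_filter, mem_Ico, mem_range]
      constructor
      · rintro ⟨⟨h1, h2⟩, h3⟩
        exact ⟨⟨by omega, h3⟩, h1, h2⟩
      · rintro ⟨⟨_, h3⟩, h1, h2⟩
        exact ⟨⟨h1, h2⟩, h3⟩) (by
      refine le_trans (le_of_eq ?_) (h.clo ρ hρ)
      apply Finset.sum_congr
      · ext N
        simp only [mem_filter, mem_range]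
        tauto
      · intro N _
        rfl) a b ha hab hb hθab
  have e : c / 4 / 2 = c / 8 := by ring
  rw [e] at h1
  exact h1

/-- (2.3)-(2.6): the local entropies are `ρ` -/
theorem ent_close {T s R1 R R' ρ : ℕ} {c θ τ e2 e3 r : ℝ} {μ : Ω → ℝ} {z : Ω → ℝ}
    {X Y : Ω → Fin 2 → ℝ} {ω : Ω} (hμ : ∀ ω, 0 ≤ μ ω) (h : Pth T s R1 R R' c θ τ e2 e3 r μ z X Y ω)
    (hc : 0 < c) (hθ : 0 < θ) (hθ2 : θ ≤ 1 / 2) (hT : 1 ≤ T) (h1 : 1 ≤ θ * T) (hτ : 0 < τ)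
    (he2 : 2 * e2 ≤ c / 4 * θ ^ 2) (hρ : ρ = R1 ∨ ρ = R) (hbig : 16 + 8 * (τ ^ 2 / 4) * ρ ≤ θ * ρ) :
    ∑ l ∈ range (5 * T), |eL μ X ρ l ω - ρ| ≤ K1 c * θ * ρ * T ∧
    ∑ l ∈ range (5 * T), |eL μ Y ρ l ω - ρ| ≤ K1 c * θ * ρ * T := by
  classical
  have hs := h.sup
  refine num_core' (c / 8) (by positivity) T ρ θ (Nat.cast_nonneg _) hθ2 h1 (fun l => eL μ X ρ l ω)
    (fun l => eL μ Y ρ l ω) (BB T s ρ R' c θ τ μ z X Y ω) (fun l => eL_nonneg hμ X ρ l ω)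
    (fun l => eL_le hμ X ρ l hs) (fun l => eL_nonneg hμ Y ρ l ω) (fun l => eL_le hμ Y ρ l hs)
    (h.slo ρ hρ) (h.preX ρ hρ) (h.preY ρ hρ) ?_ (BB_dense h hθ hT he2 hρ)
  intro N hN _ _
  unfold BB at hN
  refine le_trans ?_ (mem_filter.1 hN).2
  have hsub : (range (N + 1)).filter (fun l => 2 * (ρ : ℝ) + θ * ρ < eL μ X ρ l ω + eL μ Y ρ (N - l) ω) ⊆
      (range (N + 1)).filter (fun l => (τ ^ 2 / 4) ^ 2 < sl μ Y X (N - l) l ρ ω) := by
    intro l hl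
    rw [mem_filter] at hl ⊢
    refine ⟨hl.1, ?_⟩
    by_contra hc
    push Not at hc
    have h2 := strip (lw μ Y (N - l) ω) (lw_nonneg hμ Y (N - l) ω) (lw_sum hμ Y (N - l) hs)
      (fun ω' => fr (N - l) (Y ω')) (fun ω' _ => fr_mem _ _) (lw μ X l ω) (lw_nonneg hμ X l ω)
      (lw_sum hμ X l hs) (fun ω' => fr l (X ω')) (fun ω' _ => fr_mem _ _) ρ (σ := τ ^ 2 / 4)
      (by positivity) hc
    have h3 := hl.2
    unfold eL at h3
    linarith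
  exact_mod_cast card_le_card hsub

/-- number of levels with a bad local entropy -/
theorem ent_card {T ρ : ℕ} {K : ℝ} {E : ℕ → ℝ} (hρ : 0 < ρ)
    (h : ∑ l ∈ range (5 * T), |E l - ρ| ≤ K * ρ * T) :
    (((range (5 * T)).filter (fun l => E l < (1 - 1 / 16) * ρ)).card : ℝ) ≤ 16 * K * T := by
  have hρ' : (0 : ℝ) < ρ := by exact_mod_cast hρ
  have h2 : ((range (5 * T)).filter (fun l => E l < (1 - 1 / 16) * ρ)).card * ((ρ : ℝ) / 16) ≤
      K * ρ * T := by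
    refine le_trans ?_ h
    calc (((range (5 * T)).filter (fun l => E l < (1 - 1 / 16) * ρ)).card : ℝ) * ((ρ : ℝ) / 16)
        = ∑ l ∈ (range (5 * T)).filter (fun l => E l < (1 - 1 / 16) * ρ), (ρ : ℝ) / 16 := by
          rw [sum_const, nsmul_eq_mul]
      _ ≤ ∑ l ∈ (range (5 * T)).filter (fun l => E l < (1 - 1 / 16) * ρ), |E l - ρ| := by
          refine sum_le_sum fun l hl => ?_
          have h3 := (mem_filter.1 hl).2
          rw [abs_of_neg (by linarith)]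
          linarith
      _ ≤ _ := sum_le_sum_of_subset_of_nonneg (filter_subset _ _) fun _ _ _ => abs_nonneg _
  have h3 : (((range (5 * T)).filter (fun l => E l < (1 - 1 / 16) * ρ)).card : ℝ) * ((ρ : ℝ) / 16) ≤
      16 * K * T * ((ρ : ℝ) / 16) := by
    refine h2.trans (le_of_eq ?_)
    ring
  exact le_of_mul_le_mul_right h3 (by positivity)

/-- reflection of a count -/
theorem card_reflect (T N : ℕ) (hN : N < 5 * T) (P : ℕ → Prop) [DecidablePred P] :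
    ((range (N + 1)).filter (fun l => P (N - l))).card ≤ ((range (5 * T)).filter P).card := by
  refine card_le_card_of_injOn (fun l => N - l) ?_ ?_
  · intro l hl
    simp only [coe_filter, mem_range, Set.mem_ofPred_eq] at hl ⊢
    exact ⟨by omega, hl.2⟩
  · intro l hl l' hl' h
    simp only [coe_filter, mem_range, Set.mem_ofPred_eq] at hl hl'
    simp only at h
    omega

theorem card_restrict (T N : ℕ) (hN : N < 5 * T) (P : ℕ → Prop) [DecidablePred P] :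
    ((range (N + 1)).filter P).card ≤ ((range (5 * T)).filter P).card := by
  refine card_le_card ?_
  intro l hl
  simp only [mem_filter, mem_range] at hl ⊢
  exact ⟨by omega, hl.2⟩

end

end Pool.Agent.Helper92.W
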