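import Pool.Agent.Helper61.W.K
import Pool.Agent.Helper97.W.LLN
import Pool.Agent.Helper97.W.PRE
import Pool.Agent.Helper56.W.DEN
import Pool.Agent.Helper19.W.SLO
import Pool.Agent.Helper71.W.CLO
import Pool.Agent.Helper52.W.REF
import Pool.Agent.Helper46.W.G2
import Pool.Agent.Helper46.W.G3
import Pool.Agent.Helper46.W.G4
import Pool.Agent.Helper20.W.RED
import Pool.Agent.Helper92.W.Asm

/-! # Theorem W (p = 2), assembled from the modules -/

namespace Pool.Agent.Helper92.W

theorem st_W : ST_W := st_RED (st_ASM (st_DEN st_LLN) (st_PRE st_LLN) st_SLO (st_CLO st_K)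
  (st_REF st_K) st_G2 st_G3 st_G4 st_G5)

end Pool.Agent.Helper92.W
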