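import Pool.Agent.Helper92.W.St

set_option autoImplicit false

namespace Pool.Agent.Helper92.W

open Finset Pool.Agent.Helper69.RK Pool.Agent.Helper61.GL Pool.Agent.Helper46.WF

open Classical in
/-- GOOD ANTIDIAGONALS are dense, with a bound for the total number of bad pairs -/
theorem dense_tot (c θ e : ℝ) (hθ : 0 < θ) (T : ℕ) (hT : 1 ≤ T) (he : 2 * e ≤ c * θ ^ 2)
    (B₁ : Finset ℕ) (P : ℕ → ℕ → Prop)
    (hB : ∀ a b : ℕ, 2 * T ≤ a → a ≤ b → b ≤ 5 * T → θ * T ≤ (b : ℝ) - a →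
      c * ((b : ℝ) - a) ≤ ((B₁.filter (fun N => a ≤ N ∧ N < b)).card : ℝ))
    (hP : ∑ N ∈ B₁.filter (fun N => N < 5 * T),
      (((range (N + 1)).filter (fun l => P l (N - l))).card : ℝ) ≤ e * (T : ℝ) ^ 2) :
    ∀ a b : ℕ, 2 * T ≤ a → a ≤ b → b ≤ 5 * T → θ * T ≤ (b : ℝ) - a →
      c / 2 * ((b : ℝ) - a) ≤ (((B₁.filter (fun N => (((range (N + 1)).filter
        (fun l => P l (N - l))).card : ℝ) ≤ θ * T)).filter (fun N => a ≤ N ∧ N < b)).card : ℝ) := by
  intro a b ha hab hb hθab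
  have hT' : (1 : ℝ) ≤ T := by exact_mod_cast hT
  have hT0 : (0 : ℝ) < T := by linarith
  have hθT : 0 < θ * T := by positivity
  set bad := (B₁.filter (fun N => N < 5 * T)).filter (fun N => θ * T <
    (((range (N + 1)).filter (fun l => P l (N - l))).card : ℝ)) with hbad
  have h1 : (bad.card : ℝ) * (θ * T) ≤ e * (T : ℝ) ^ 2 := by
    refine le_trans ?_ hP
    calc (bad.card : ℝ) * (θ * T) = ∑ N ∈ bad, θ * T := by rw [sum_const, nsmul_eq_mul]
      _ ≤ ∑ N ∈ bad, (((range (N + 1)).filter (fun l => P l (N - l))).card : ℝ) :=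
          sum_le_sum fun N hN => (mem_filter.1 hN).2.le
      _ ≤ _ := sum_le_sum_of_subset_of_nonneg (filter_subset _ _) (fun _ _ _ => Nat.cast_nonneg _)
  have h2 : (bad.card : ℝ) ≤ c / 2 * (θ * T) := by
    have h3 : (bad.card : ℝ) * (θ * T) ≤ c / 2 * (θ * T) * (θ * T) := by
      refine h1.trans ?_
      nlinarith [mul_le_mul_of_nonneg_right he (sq_nonneg (T : ℝ))]
    exact le_of_mul_le_mul_right h3 hθT
  have h4 : B₁.filter (fun N => a ≤ N ∧ N < b) ⊆ ((B₁.filter (fun N => (((range (N + 1)).filter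
        (fun l => P l (N - l))).card : ℝ) ≤ θ * T)).filter (fun N => a ≤ N ∧ N < b)) ∪ bad := by
    intro N hN
    rw [mem_filter] at hN
    rw [mem_union, mem_filter, mem_filter, hbad, mem_filter, mem_filter]
    by_cases h5 : (((range (N + 1)).filter (fun l => P l (N - l))).card : ℝ) ≤ θ * T
    · exact Or.inl ⟨⟨hN.1, h5⟩, hN.2⟩
    · exact Or.inr ⟨⟨hN.1, lt_of_lt_of_le hN.2.2 hb⟩, not_le.1 h5⟩
  have h6 := (card_le_card h4).trans (card_union_le _ _)
  have h7 : ((B₁.filter (fun N => a ≤ N ∧ N < b)).card : ℝ) ≤ (((B₁.filter (fun N => (((range (N + 1)).filter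
        (fun l => P l (N - l))).card : ℝ) ≤ θ * T)).filter (fun N => a ≤ N ∧ N < b)).card : ℝ) + bad.card := by
    exact_mod_cast h6
  have h8 := hB a b ha hab hb hθab
  have hc : 0 ≤ c / 2 := by
    by_contra hc
    push Not at hc
    have h9 : (0 : ℝ) ≤ bad.card := Nat.cast_nonneg _
    have : c / 2 * (θ * T) < 0 := mul_neg_of_neg_of_pos hc hθT
    linarith
  have h10 : c / 2 * (θ * T) ≤ c / 2 * ((b : ℝ) - a) := mul_le_mul_of_nonneg_left hθab hc
  linarith

/-- Markov's inequality for the number of large values -/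
theorem card_large {ι : Type} (S : Finset ι) (g : ι → ℝ) (hg : ∀ l ∈ S, 0 ≤ g l) {A ε : ℝ} (hε : 0 < ε)
    (h : ∑ l ∈ S, g l ≤ A) : ((S.filter (fun l => ε < g l)).card : ℝ) ≤ A / ε := by
  classical
  rw [le_div_iff₀ hε]
  refine le_trans ?_ h
  calc ((S.filter (fun l => ε < g l)).card : ℝ) * ε = ∑ l ∈ S.filter (fun l => ε < g l), ε := by
        rw [sum_const, nsmul_eq_mul]
    _ ≤ ∑ l ∈ S.filter (fun l => ε < g l), g l := sum_le_sum (fun l hl => (mem_filter.mp hl).2.le)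
    _ ≤ ∑ l ∈ S, g l := sum_le_sum_of_subset_of_nonneg (filter_subset _ _)
        (fun l hl _ => hg l hl)

end Pool.Agent.Helper92.W
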