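import Pool.Agent.Helper92.W.Det2

set_option autoImplicit false

namespace Pool.Agent.Helper92.W

open Finset Pool.Agent.Helper69.RK Pool.Agent.Helper61.GL Pool.Agent.Helper46.WF Pool.Agent.Helper97.WF

noncomputable section

variable {Ω : Type} [Fintype Ω]

/-- Markov with an implied event -/
theorem Pw_le_of {μ : Ω → ℝ} (hμ : ∀ ω, 0 ≤ μ ω) (A : Ω → Prop) (F : Ω → ℝ) {t m δ : ℝ} (ht : 0 < t)
    (hF : ∀ ω, μ ω ≠ 0 → 0 ≤ F ω) (hm : ∑ ω, μ ω * F ω ≤ m) (hA : ∀ ω, μ ω ≠ 0 → A ω → t < F ω)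
    (hδ : m ≤ δ * t) : Pw μ A ≤ δ := by
  refine (Pw_mono μ hμ hA).trans ((Pw_markov μ hμ F hF ht hm).trans ?_)
  rw [div_le_iff₀ ht]
  exact hδ

open Classical in
/-- shift of a count of levels -/
theorem card_shift (a b k : ℕ) (P : ℕ → Prop) :
    ((Ico (a + k) (b + k)).filter P).card ≤ ((Ico a b).filter (fun N => P (N + k))).card := by
  refine card_le_card_of_injOn (fun t => t - k) ?_ ?_
  · intro t ht
    simp only [coe_filter, mem_Ico, Set.mem_ofPred_eq] at ht ⊢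
    refine ⟨by omega, ?_⟩
    rw [Nat.sub_add_cancel (by omega)]
    exact ht.2
  · intro t ht t' ht' h
    simp only [coe_filter, mem_Ico, Set.mem_ofPred_eq] at ht ht'
    simp only at h
    omega

open Classical in
theorem den_ok {T s ρ R R' n : ℕ} {c θ ε : ℝ} {μ : Ω → ℝ} {z : Ω → ℝ} {ω : Ω}
    (h : ¬ ∃ a b : ℕ, b ≤ n ∧ (a : ℝ) + ε * n ≤ b ∧
      ((((Ico a b).filter (fun t => DL μ z c R' t ω)).card : ℝ) < c / 4 * ((b : ℝ) - a)))
    (hρ : ρ ≤ R) (hn : 8 * T + s + R + 1 ≤ n) (hε : ε * n ≤ θ * T) :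
    ∀ a b : ℕ, 2 * T ≤ a → a ≤ b → b ≤ 5 * T → θ * T ≤ (b : ℝ) - a →
    c / 4 * ((b : ℝ) - a) ≤ (((Ico a b).filter (fun N => DL μ z c R' (N + s + (ρ + 1)) ω)).card : ℝ) := by
  intro a b ha hab hb hθ
  by_contra hcon
  push Not at hcon
  apply h
  refine ⟨a + (s + (ρ + 1)), b + (s + (ρ + 1)), by omega, ?_, ?_⟩
  · push_cast
    linarith
  · have h1 := card_shift a b (s + (ρ + 1)) (fun t => DL μ z c R' t ω)
    have h2 : (((Ico (a + (s + (ρ + 1))) (b + (s + (ρ + 1)))).filter (fun t => DL μ z c R' t ω)).card : ℝ) ≤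
        (((Ico a b).filter (fun N => DL μ z c R' (N + s + (ρ + 1)) ω)).card : ℝ) := by
      refine (Nat.cast_le.2 h1).trans (le_of_eq ?_)
      simp only [add_assoc]
    refine lt_of_le_of_lt h2 (lt_of_lt_of_le hcon (le_of_eq ?_))
    push_cast
    ring

theorem pre_ok {T ρ n : ℕ} {θ ε : ℝ} {μ : Ω → ℝ} {X : Ω → Fin 2 → ℝ} {ω : Ω}
    (h : ¬ ∃ N : ℕ, N ≤ n ∧ ∑ l ∈ range N, eL μ X ρ l ω < ρ * N - ε * n) (hρ : 1 ≤ ρ)
    (hn : 8 * T ≤ n) (hε : ε * n ≤ θ * T) (hθ : 0 ≤ θ) :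
    ∀ N : ℕ, N ≤ 8 * T → (ρ : ℝ) * N - θ * ρ * T ≤ ∑ l ∈ range N, eL μ X ρ l ω := by
  intro N hN
  by_contra hcon
  push Not at hcon
  apply h
  refine ⟨N, by omega, lt_of_lt_of_le hcon ?_⟩
  have h1 : (1 : ℝ) ≤ ρ := by exact_mod_cast hρ
  have h2 : 0 ≤ θ * T := by positivity
  have h3 : θ * T ≤ θ * ρ * T := by nlinarith
  linarith

open Classical in
/-- SLO: failure probability -/
theorem slo_fail (hS : ST_SLO) {μ : Ω → ℝ} (hμ : ∀ ω, 0 ≤ μ ω) (hm : mass μ = 1) (X : Ω → Fin 2 → ℝ)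
    (ρ T : ℕ) {θ δ : ℝ} (hρ : 1 ≤ ρ) (hT : 1 ≤ T) (hθ : 0 < θ)
    (h1 : 8 ≤ δ * θ ^ 3 * T) (h2 : 64 ≤ δ * θ ^ 3 * ρ) :
    Pw μ (fun ω => ¬ (((range (4 * T)).filter (fun l =>
      θ * ρ < |eL μ X ρ l ω - eL μ X ρ (l + 1) ω|)).card : ℝ) ≤ θ * T) ≤ δ := by
  have hρ' : (1 : ℝ) ≤ ρ := by exact_mod_cast hρ
  have hT' : (1 : ℝ) ≤ T := by exact_mod_cast hT
  have hρ0 : (0 : ℝ) < ρ := by linarith
  have hT0 : (0 : ℝ) < T := by linarith
  refine Pw_le_of hμ _ (fun ω => ∑ l ∈ range (4 * T), (eL μ X ρ (l + 1) ω - eL μ X ρ l ω) ^ 2)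
    (t := (θ * ρ) ^ 2 * (θ * T)) (m := 4 * (ρ : ℝ) ^ 2 + 8 * ρ * ((4 * T : ℕ) : ℝ)) (by positivity)
    (fun ω _ => sum_nonneg fun _ _ => sq_nonneg _) ?_ ?_ ?_
  · refine le_trans (le_of_eq ?_) (hS Ω μ X hμ hm ρ (4 * T))
    simp only [mul_sum]
    exact sum_comm
  · intro ω _ h
    push Not at h
    have h3 : (θ * ρ) ^ 2 * (((range (4 * T)).filter (fun l =>
      θ * ρ < |eL μ X ρ l ω - eL μ X ρ (l + 1) ω|)).card : ℝ) ≤
        ∑ l ∈ range (4 * T), (eL μ X ρ (l + 1) ω - eL μ X ρ l ω) ^ 2 := by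
      calc (θ * ρ) ^ 2 * (((range (4 * T)).filter (fun l =>
            θ * ρ < |eL μ X ρ l ω - eL μ X ρ (l + 1) ω|)).card : ℝ)
          = ∑ l ∈ (range (4 * T)).filter (fun l =>
              θ * ρ < |eL μ X ρ l ω - eL μ X ρ (l + 1) ω|), (θ * ρ) ^ 2 := by
            rw [sum_const, nsmul_eq_mul, mul_comm]
        _ ≤ ∑ l ∈ (range (4 * T)).filter (fun l =>
              θ * ρ < |eL μ X ρ l ω - eL μ X ρ (l + 1) ω|), (eL μ X ρ (l + 1) ω - eL μ X ρ l ω) ^ 2 := by
            refine sum_le_sum fun l hl => ?_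
            have h4 := (mem_filter.1 hl).2
            rw [abs_sub_comm] at h4
            have h5 := pow_le_pow_left₀ (by positivity) h4.le 2
            rwa [sq_abs] at h5
        _ ≤ _ := sum_le_sum_of_subset_of_nonneg (filter_subset _ _) fun _ _ _ => sq_nonneg _
    exact lt_of_lt_of_le (mul_lt_mul_of_pos_left h (by positivity)) h3
  · -- `4 ρ² + 32 ρ T ≤ δ θ³ ρ² T`
    push_cast
    have e : δ * ((θ * ρ) ^ 2 * (θ * T)) = (δ * θ ^ 3 * T) * ρ ^ 2 / 2 + (δ * θ ^ 3 * ρ) * (ρ * T) / 2 := by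
      ring
    rw [e]
    have k1 := mul_le_mul_of_nonneg_right h1 (sq_nonneg (ρ : ℝ))
    have k2 := mul_le_mul_of_nonneg_right h2 (show (0 : ℝ) ≤ ρ * T by positivity)
    linarith

open Classical in
/-- CLO: failure probability -/
theorem clo_fail {μ : Ω → ℝ} (hμ : ∀ ω, 0 ≤ μ ω) (z : Ω → ℝ) (X Y : Ω → Fin 2 → ℝ)
    (n s ρ R T R' : ℕ) {c τ e e2 δ : ℝ} (hρ : ρ ≤ R) (hn : 8 * T + s + R + 1 ≤ n) (hτ : 0 < τ) (hT : 1 ≤ T)
    (he2 : 0 < e2) (hE : ∑ ω, μ ω * ∑ l ∈ range (n + 1), ∑ j ∈ range (n + 1),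
      (if l + j + s + (ρ + 1) ≤ n ∧ DL μ z c R' (l + j + s + (ρ + 1)) ω then sl μ Y X j l ρ ω else 0) ≤
        e * (n : ℝ) ^ 2) (hδ : e * (n : ℝ) ^ 2 ≤ δ * ((τ ^ 2 / 4) ^ 2 * (e2 * (T : ℝ) ^ 2))) :
    Pw μ (fun ω => ¬ ∑ N ∈ (range (5 * T)).filter (fun N => DL μ z c R' (N + s + (ρ + 1)) ω),
      (((range (N + 1)).filter (fun l => (τ ^ 2 / 4) ^ 2 < sl μ Y X (N - l) l ρ ω)).card : ℝ) ≤
        e2 * (T : ℝ) ^ 2) ≤ δ := by
  have hT' : (1 : ℝ) ≤ T := by exact_mod_cast hT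
  have hT0 : (0 : ℝ) < T := by linarith
  refine Pw_le_of hμ _ _ (t := (τ ^ 2 / 4) ^ 2 * (e2 * (T : ℝ) ^ 2)) (by positivity) ?_ hE ?_ hδ
  · intro ω _
    refine sum_nonneg fun l _ => sum_nonneg fun j _ => ?_
    split_ifs
    · exact sl_nonneg hμ _ _ _ _ _ _
    · exact le_rfl
  · intro ω _ h
    push Not at h
    have h1 : (τ ^ 2 / 4) ^ 2 * ∑ N ∈ (range (5 * T)).filter (fun N => DL μ z c R' (N + s + (ρ + 1)) ω),
      (((range (N + 1)).filter (fun l => (τ ^ 2 / 4) ^ 2 < sl μ Y X (N - l) l ρ ω)).card : ℝ) ≤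
      ∑ N ∈ (range (5 * T)).filter (fun N => DL μ z c R' (N + s + (ρ + 1)) ω),
        ∑ l ∈ range (N + 1), sl μ Y X (N - l) l ρ ω := by
      rw [mul_sum]
      refine sum_le_sum fun N _ => ?_
      calc (τ ^ 2 / 4) ^ 2 * (((range (N + 1)).filter (fun l =>
            (τ ^ 2 / 4) ^ 2 < sl μ Y X (N - l) l ρ ω)).card : ℝ)
          = ∑ l ∈ (range (N + 1)).filter (fun l => (τ ^ 2 / 4) ^ 2 < sl μ Y X (N - l) l ρ ω),
              (τ ^ 2 / 4) ^ 2 := by rw [sum_const, nsmul_eq_mul, mul_comm]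
        _ ≤ ∑ l ∈ (range (N + 1)).filter (fun l => (τ ^ 2 / 4) ^ 2 < sl μ Y X (N - l) l ρ ω),
              sl μ Y X (N - l) l ρ ω := sum_le_sum fun l hl => (mem_filter.1 hl).2.le
        _ ≤ _ := sum_le_sum_of_subset_of_nonneg (filter_subset _ _) fun _ _ _ => sl_nonneg hμ _ _ _ _ _ _
    have h2 : ∑ N ∈ (range (5 * T)).filter (fun N => DL μ z c R' (N + s + (ρ + 1)) ω),
        ∑ l ∈ range (N + 1), sl μ Y X (N - l) l ρ ω ≤ ∑ l ∈ range (n + 1), ∑ j ∈ range (n + 1),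
      (if l + j + s + (ρ + 1) ≤ n ∧ DL μ z c R' (l + j + s + (ρ + 1)) ω then sl μ Y X j l ρ ω else 0) := by
      rw [sum_sigma', ← sum_product']
      -- compare along the injection `(N, l) ↦ (l, N - l)`
      set g : ℕ × ℕ → ℝ := fun p => (if p.1 + p.2 + s + (ρ + 1) ≤ n ∧
        DL μ z c R' (p.1 + p.2 + s + (ρ + 1)) ω then sl μ Y X p.2 p.1 ρ ω else 0) with hg
      have hg0 : ∀ p, 0 ≤ g p := by
        intro p
        simp only [hg]
        split_ifs
        · exact sl_nonneg hμ _ _ _ _ _ _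
        · exact le_rfl
      have hinj : Set.InjOn (fun x : (_ : ℕ) × ℕ => (x.2, x.1 - x.2))
          (((range (5 * T)).filter (fun N => DL μ z c R' (N + s + (ρ + 1)) ω)).sigma
            (fun N => range (N + 1)) : Finset ((_ : ℕ) × ℕ)) := by
        rintro ⟨a, b⟩ h1 ⟨a', b'⟩ h2 h
        simp only [coe_sigma, Set.mem_sigma_iff, mem_coe, mem_filter, mem_range, Prod.mk.injEq] at h1 h2 h
        obtain ⟨h3, h4⟩ := h
        subst h3
        have : a = a' := by omega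
        subst this
        rfl
      calc _ = ∑ x ∈ (((range (5 * T)).filter (fun N => DL μ z c R' (N + s + (ρ + 1)) ω)).sigma
            (fun N => range (N + 1)) : Finset ((_ : ℕ) × ℕ)), g (x.2, x.1 - x.2) := by
            refine sum_congr rfl ?_
            rintro ⟨a, b⟩ hx
            simp only [mem_sigma, mem_filter, mem_range] at hx
            simp only [hg]
            have e : b + (a - b) = a := by omega
            rw [e, if_pos ⟨by omega, hx.1.2⟩]
        _ = ∑ p ∈ ((((range (5 * T)).filter (fun N => DL μ z c R' (N + s + (ρ + 1)) ω)).sigma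
            (fun N => range (N + 1)) : Finset ((_ : ℕ) × ℕ))).image (fun x => (x.2, x.1 - x.2)), g p := by
            rw [sum_image hinj]
        _ ≤ ∑ p ∈ range (n + 1) ×ˢ range (n + 1), g p := by
            refine sum_le_sum_of_subset_of_nonneg ?_ fun p _ _ => hg0 p
            intro p hp
            rw [mem_image] at hp
            obtain ⟨⟨a, b⟩, hx, rfl⟩ := hp
            simp only [mem_sigma, mem_filter, mem_range] at hx
            simp only [mem_product, mem_range]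
            omega
        _ = _ := rfl
    refine lt_of_lt_of_le ?_ (h1.trans h2)
    exact mul_lt_mul_of_pos_left h (by positivity)

open Classical in
/-- REF: failure probability -/
theorem ref_fail {μ : Ω → ℝ} (hμ : ∀ ω, 0 ≤ μ ω) (z : Ω → ℝ) (Y : Ω → Fin 2 → ℝ) (U : Ω → Fin 2 → ℝ)
    (n s R T R' : ℕ) {c e e3 δ : ℝ} (hn : 8 * T + s + R + 1 ≤ n) (hT : 1 ≤ T) (he3 : 0 < e3)
    (hE : ∑ ω, μ ω * ∑ j ∈ range (n + 1),
      (if j + s + (R + 1) ≤ n ∧ DL μ z c R' (j + s + (R + 1)) ω then nl μ Y j R (U ω) ω else 0) ≤ e * n)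
    (hδ : e * n ≤ δ * (1 / 16 * (e3 * T))) :
    Pw μ (fun ω => ¬ (((range (5 * T)).filter (fun j => DL μ z c R' (j + s + (R + 1)) ω ∧
      1 / 16 < nl μ Y j R (U ω) ω)).card : ℝ) ≤ e3 * T) ≤ δ := by
  have hT' : (1 : ℝ) ≤ T := by exact_mod_cast hT
  have hT0 : (0 : ℝ) < T := by linarith
  refine Pw_le_of hμ _ _ (t := 1 / 16 * (e3 * T)) (by positivity) ?_ hE ?_ hδ
  · intro ω _
    refine sum_nonneg fun j _ => ?_
    split_ifs
    · exact nl_nonneg hμ _ _ _ _ _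
    · exact le_rfl
  · intro ω _ h
    push Not at h
    have h1 : 1 / 16 * (((range (5 * T)).filter (fun j => DL μ z c R' (j + s + (R + 1)) ω ∧
        1 / 16 < nl μ Y j R (U ω) ω)).card : ℝ) ≤ ∑ j ∈ range (n + 1),
        (if j + s + (R + 1) ≤ n ∧ DL μ z c R' (j + s + (R + 1)) ω then nl μ Y j R (U ω) ω else 0) := by
      calc 1 / 16 * (((range (5 * T)).filter (fun j => DL μ z c R' (j + s + (R + 1)) ω ∧
            1 / 16 < nl μ Y j R (U ω) ω)).card : ℝ)
          = ∑ j ∈ (range (5 * T)).filter (fun j => DL μ z c R' (j + s + (R + 1)) ω ∧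
            1 / 16 < nl μ Y j R (U ω) ω), (1 / 16 : ℝ) := by rw [sum_const, nsmul_eq_mul, mul_comm]
        _ ≤ ∑ j ∈ (range (5 * T)).filter (fun j => DL μ z c R' (j + s + (R + 1)) ω ∧
            1 / 16 < nl μ Y j R (U ω) ω), (if j + s + (R + 1) ≤ n ∧ DL μ z c R' (j + s + (R + 1)) ω
              then nl μ Y j R (U ω) ω else 0) := by
            refine sum_le_sum fun j hj => ?_
            rw [mem_filter, mem_range] at hj
            rw [if_pos ⟨by omega, hj.2.1⟩]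
            exact hj.2.2.le
        _ ≤ _ := by
            refine sum_le_sum_of_subset_of_nonneg ?_ fun j _ _ => ?_
            · intro j hj
              rw [mem_filter, mem_range] at hj
              rw [mem_range]
              omega
            · split_ifs
              · exact nl_nonneg hμ _ _ _ _ _
              · exact le_rfl
    refine lt_of_lt_of_le ?_ h1
    exact mul_lt_mul_of_pos_left h (by norm_num)

open Classical in
/-- INH: failure probability -/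
theorem inh_fail (hG4 : ST_G4) {μ : Ω → ℝ} (hμ : ∀ ω, 0 ≤ μ ω) (hm : mass μ = 1) (X : Ω → Fin 2 → ℝ)
    (T : ℕ) {θ τ r δ : ℝ} (hT : 1 ≤ T) (hθ : 0 < θ) (hτ : 0 < τ) (h1 : 4 * τ ≤ δ * θ) :
    Pw μ (fun ω => ¬ (((range (4 * T)).filter (fun l =>
      Str (lw μ X l ω) (fun ω' => fr l (X ω')) (hat (lw μ X l ω) (fun ω' => fr l (X ω')) r (τ ^ 2)) r (τ ^ 2) ∧
      ¬ Str (lw μ X (l + 1) ω) (fun ω' => fr (l + 1) (X ω'))
        (hat (lw μ X l ω) (fun ω' => fr l (X ω')) r (τ ^ 2)) (2 * r) τ)).card : ℝ) ≤ θ * T) ≤ δ := by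
  have hT' : (1 : ℝ) ≤ T := by exact_mod_cast hT
  have hT0 : (0 : ℝ) < T := by linarith
  set Q : ℕ → Ω → Prop := fun l ω =>
      Str (lw μ X l ω) (fun ω' => fr l (X ω')) (hat (lw μ X l ω) (fun ω' => fr l (X ω')) r (τ ^ 2)) r (τ ^ 2) ∧
      ¬ Str (lw μ X (l + 1) ω) (fun ω' => fr (l + 1) (X ω'))
        (hat (lw μ X l ω) (fun ω' => fr l (X ω')) r (τ ^ 2)) (2 * r) τ with hQ
  -- one level
  have hone : ∀ l, ∑ ω, μ ω * (if Q l ω then (1 : ℝ) else 0) ≤ τ := by
    intro l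
    rw [← sum_cw μ hμ (fun ω' => cel l (X ω')) (fun ω => if Q l ω then (1 : ℝ) else 0)]
    have h2 : ∀ ω, μ ω ≠ 0 → ∑ ω', cw μ (fun ω' => cel l (X ω')) ω ω' * (if Q l ω' then (1 : ℝ) else 0) ≤ τ := by
      intro ω h0
      by_cases hS : Str (lw μ X l ω) (fun ω' => fr l (X ω'))
          (hat (lw μ X l ω) (fun ω' => fr l (X ω')) r (τ ^ 2)) r (τ ^ 2)
      · refine le_trans ?_ (hG4 Ω μ X hμ l ω h0 _ r τ hτ hS)
        unfold Pw
        refine sum_le_sum fun ω' _ => ?_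
        by_cases h3 : cw μ (fun ω' => cel l (X ω')) ω ω' = 0
        · rw [h3, zero_mul]
          split_ifs
          · exact lw_nonneg hμ X l ω ω'
          · exact le_rfl
        · have h4 := (cw_ne_zero μ (fun ω' => cel l (X ω')) h3).1
          have h5 : lw μ X l ω' = lw μ X l ω := by
            funext ω2
            exact cw_congr μ (fun ω' => cel l (X ω')) h4 ω2
          have h6 : Q l ω' → ¬ Str (lw μ X (l + 1) ω') (fun ω'' => fr (l + 1) (X ω''))
              (hat (lw μ X l ω) (fun ω' => fr l (X ω')) r (τ ^ 2)) (2 * r) τ := by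
            intro h7
            have h8 := h7.2
            rw [h5] at h8
            exact h8
          by_cases h9 : Q l ω'
          · rw [if_pos h9, if_pos (h6 h9), mul_one]
            exact le_rfl
          · rw [if_neg h9, mul_zero]
            split_ifs
            · exact lw_nonneg hμ X l ω ω'
            · exact le_rfl
      · refine le_trans (le_of_eq ?_) hτ.le
        refine sum_eq_zero fun ω' _ => ?_
        by_cases h3 : cw μ (fun ω' => cel l (X ω')) ω ω' = 0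
        · rw [h3, zero_mul]
        · have h4 := (cw_ne_zero μ (fun ω' => cel l (X ω')) h3).1
          have h5 : lw μ X l ω' = lw μ X l ω := by
            funext ω2
            exact cw_congr μ (fun ω' => cel l (X ω')) h4 ω2
          have h6 : ¬ Q l ω' := by
            intro h7
            have h8 := h7.1
            rw [h5] at h8
            exact hS h8
          rw [if_neg h6, mul_zero]
    calc ∑ ω, μ ω * ∑ ω', cw μ (fun ω' => cel l (X ω')) ω ω' * (if Q l ω' then (1 : ℝ) else 0)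
        ≤ ∑ ω, μ ω * τ := by
          refine sum_le_sum fun ω _ => ?_
          by_cases h0 : μ ω = 0
          · rw [h0, zero_mul, zero_mul]
          · exact mul_le_mul_of_nonneg_left (h2 ω h0) (hμ ω)
      _ = τ := by
          rw [← sum_mul]
          unfold mass at hm
          rw [hm, one_mul]
  refine Pw_le_of hμ _ (fun ω => (((range (4 * T)).filter (fun l => Q l ω)).card : ℝ)) (t := θ * T)
    (m := 4 * T * τ) (by positivity) (fun _ _ => Nat.cast_nonneg _) ?_ ?_ ?_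
  · have e : ∀ ω, (((range (4 * T)).filter (fun l => Q l ω)).card : ℝ) =
        ∑ l ∈ range (4 * T), (if Q l ω then (1 : ℝ) else 0) := by
      intro ω
      rw [← sum_filter, sum_const, nsmul_eq_mul, mul_one]
    simp only [e, mul_sum]
    rw [sum_comm]
    calc ∑ l ∈ range (4 * T), ∑ ω, μ ω * (if Q l ω then (1 : ℝ) else 0) ≤ ∑ l ∈ range (4 * T), τ :=
          sum_le_sum fun l _ => hone l
      _ = 4 * T * τ := by
          rw [sum_const, card_range, nsmul_eq_mul]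
          push_cast
          ring
  · intro ω _ h
    exact not_le.1 h
  · have := mul_le_mul_of_nonneg_right h1 hT0.le
    linarith

end

end Pool.Agent.Helper92.W
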