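import Pool.Agent.Helper92.W.Dense

set_option autoImplicit false

namespace Pool.Agent.Helper92.W

open Finset Pool.Agent.Helper69.RK Pool.Agent.Helper61.GL Pool.Agent.Helper46.WF

noncomputable section

section basic

variable {Ω : Type} [Fintype Ω]

theorem fr_mem (l : ℕ) (v : Fin 2 → ℝ) (i : Fin 2) : 0 ≤ fr l v i ∧ fr l v i < 1 :=
  ⟨Int.fract_nonneg _, Int.fract_lt_one _⟩

theorem lw_nonneg {μ : Ω → ℝ} (hμ : ∀ ω, 0 ≤ μ ω) (X : Ω → Fin 2 → ℝ) (l : ℕ) (ω ω' : Ω) :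
    0 ≤ lw μ X l ω ω' := cw_nonneg μ _ hμ ω ω'

theorem lw_sum {μ : Ω → ℝ} (hμ : ∀ ω, 0 ≤ μ ω) (X : Ω → Fin 2 → ℝ) (l : ℕ) {ω : Ω} (h : μ ω ≠ 0) :
    ∑ ω', lw μ X l ω ω' = 1 := cw_sum μ _ hμ ω h

theorem eL_nonneg {μ : Ω → ℝ} (hμ : ∀ ω, 0 ≤ μ ω) (X : Ω → Fin 2 → ℝ) (ρ l : ℕ) (ω : Ω) :
    0 ≤ eL μ X ρ l ω := Hh_nonneg _ (lw_nonneg hμ X l ω) _

theorem eL_le {μ : Ω → ℝ} (hμ : ∀ ω, 0 ≤ μ ω) (X : Ω → Fin 2 → ℝ) (ρ l : ℕ) {ω : Ω} (h : μ ω ≠ 0) :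
    eL μ X ρ l ω ≤ 2 * ρ := by
  have h1 := Hh_le (lw μ X l ω) (lw_nonneg hμ X l ω) (lw_sum hμ X l h)
    (fun ω' => cel ρ (fr l (X ω'))) (allc ρ) (fun _ => 1 / 2 ^ (2 * ρ)) (fun _ => by positivity)
    (fun _ _ => by positivity) (by
      rw [sum_const, nsmul_eq_mul, allc_card]
      rw [mul_one_div, div_self (by positivity)])
    (fun ω' _ => cel_mem (fr_mem l (X ω')))
  refine h1.trans (le_of_eq ?_)
  rw [← sum_mul, lw_sum hμ X l h, one_mul, one_div, Real.logb_inv, logb_two_pow, neg_neg]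
  push_cast
  ring

theorem sl_nonneg {μ : Ω → ℝ} (hμ : ∀ ω, 0 ≤ μ ω) (Y X : Ω → Fin 2 → ℝ) (j l ρ : ℕ) (ω : Ω) :
    0 ≤ sl μ Y X j l ρ ω := by
  unfold sl nas
  exact sum_nonneg fun ω1 _ => mul_nonneg (lw_nonneg hμ X l ω ω1) (sum_nonneg fun ω2 _ =>
    mul_nonneg (lw_nonneg hμ X l ω ω2) (na_nonneg _ (lw_nonneg hμ Y j ω) _ _ _))

theorem nl_nonneg {μ : Ω → ℝ} (hμ : ∀ ω, 0 ≤ μ ω) (Y : Ω → Fin 2 → ℝ) (j ρ : ℕ) (U : Fin 2 → ℝ) (ω : Ω) :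
    0 ≤ nl μ Y j ρ U ω := na_nonneg _ (lw_nonneg hμ Y j ω) _ _ _

/-- a direction of a strip, if there is one -/
def hat (w : Ω → ℝ) (V : Ω → Fin 2 → ℝ) (r e : ℝ) : Fin 2 → ℝ :=
  open Classical in if h : ∃ θ : Fin 2 → ℝ, θ 0 ^ 2 + θ 1 ^ 2 = 1 ∧ Str w V θ r e then h.choose else ![1, 0]

theorem hat_unit (w : Ω → ℝ) (V : Ω → Fin 2 → ℝ) (r e : ℝ) : hat w V r e 0 ^ 2 + hat w V r e 1 ^ 2 = 1 := by
  unfold hat
  split_ifs with h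
  · exact h.choose_spec.1
  · simp

theorem hat_str {w : Ω → ℝ} {V : Ω → Fin 2 → ℝ} {r e : ℝ} {θ : Fin 2 → ℝ}
    (h1 : θ 0 ^ 2 + θ 1 ^ 2 = 1) (h2 : Str w V θ r e) : Str w V (hat w V r e) r e := by
  have h : ∃ θ : Fin 2 → ℝ, θ 0 ^ 2 + θ 1 ^ 2 = 1 ∧ Str w V θ r e := ⟨θ, h1, h2⟩
  unfold hat
  rw [dif_pos h]
  exact h.choose_spec.2

theorem Str_mono {w : Ω → ℝ} (hw : ∀ ω, 0 ≤ w ω) {V : Ω → Fin 2 → ℝ} {θ : Fin 2 → ℝ} {r r' e e' : ℝ}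
    (hr : r ≤ r') (he : e ≤ e') (h : Str w V θ r e) : Str w V θ r' e' := by
  obtain ⟨c, hc⟩ := h
  refine ⟨c, le_trans (Pw_mono w hw fun ω _ h1 => ?_) (hc.trans he)⟩
  exact lt_of_le_of_lt hr h1

/-- distance of directions -/
theorem om_unit_le {a b : Fin 2 → ℝ} (ha : a 0 ^ 2 + a 1 ^ 2 = 1) (hb : b 0 ^ 2 + b 1 ^ 2 = 1) :
    |om a b| ≤ 1 := by
  rw [abs_le_one_iff_mul_self_le_one]
  unfold om
  nlinarith [sq_nonneg (a 0 * b 0 + a 1 * b 1)]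

theorem om_tri {a b c : Fin 2 → ℝ} (ha : a 0 ^ 2 + a 1 ^ 2 = 1) (hb : b 0 ^ 2 + b 1 ^ 2 = 1)
    (hc : c 0 ^ 2 + c 1 ^ 2 = 1) : |om a c| ≤ |om a b| + |om b c| := by
  -- `om a c = (b . c) om a b + (a . b) om b c` because `b` is a unit vector
  have e : om a c = (b 0 * c 0 + b 1 * c 1) * om a b + (a 0 * b 0 + a 1 * b 1) * om b c := by
    unfold om
    linear_combination (a 1 * c 0 - a 0 * c 1) * hb
  have h1 : |b 0 * c 0 + b 1 * c 1| ≤ 1 := by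
    rw [abs_le_one_iff_mul_self_le_one]
    nlinarith [sq_nonneg (b 0 * c 1 - b 1 * c 0)]
  have h2 : |a 0 * b 0 + a 1 * b 1| ≤ 1 := by
    rw [abs_le_one_iff_mul_self_le_one]
    nlinarith [sq_nonneg (a 0 * b 1 - a 1 * b 0)]
  rw [e]
  refine (abs_add_le _ _).trans ?_
  rw [abs_mul, abs_mul]
  have h3 := mul_le_mul_of_nonneg_right h1 (abs_nonneg (om a b))
  have h4 := mul_le_mul_of_nonneg_right h2 (abs_nonneg (om b c))
  linarith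

/-- changing the direction -/
theorem om_change {a b U : Fin 2 → ℝ} (ha : a 0 ^ 2 + a 1 ^ 2 = 1) (hb : b 0 ^ 2 + b 1 ^ 2 = 1)
    (hU : ∀ i, |U i| ≤ 32) : |om a U| ≤ |om b U| + 64 * |om b a| := by
  have e : om a U = (a 0 * b 0 + a 1 * b 1) * om b U - (b 0 * U 0 + b 1 * U 1) * om b a := by
    unfold om
    linear_combination (a 1 * U 0 - a 0 * U 1) * hb
  have h1 : |a 0 * b 0 + a 1 * b 1| ≤ 1 := by
    rw [abs_le_one_iff_mul_self_le_one]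
    nlinarith [sq_nonneg (a 0 * b 1 - a 1 * b 0)]
  have hb0 : |b 0| ≤ 1 := by
    rw [abs_le_one_iff_mul_self_le_one]
    nlinarith [sq_nonneg (b 1)]
  have hb1 : |b 1| ≤ 1 := by
    rw [abs_le_one_iff_mul_self_le_one]
    nlinarith [sq_nonneg (b 0)]
  have h2 : |b 0 * U 0 + b 1 * U 1| ≤ 64 := by
    refine (abs_add_le _ _).trans ?_
    rw [abs_mul, abs_mul]
    have := mul_le_mul hb0 (hU 0) (abs_nonneg _) zero_le_one
    have := mul_le_mul hb1 (hU 1) (abs_nonneg _) zero_le_one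
    linarith
  rw [e]
  refine (abs_sub _ _).trans ?_
  rw [abs_mul, abs_mul]
  have h3 := mul_le_mul_of_nonneg_right h1 (abs_nonneg (om b U))
  have h4 := mul_le_mul_of_nonneg_right h2 (abs_nonneg (om b a))
  linarith

/-- one of two vectors with an angle is off a given direction -/
theorem om_off {a X Y : Fin 2 → ℝ} (ha : a 0 ^ 2 + a 1 ^ 2 = 1) (hX : ∀ i, |X i| ≤ 32)
    (hY : ∀ i, |Y i| ≤ 32) (h : 1 / 8 ≤ |om X Y|) : 1 / 1024 ≤ |om a X| ∨ 1 / 1024 ≤ |om a Y| := by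
  by_contra hc
  push Not at hc
  have e : om X Y = (a 0 * X 0 + a 1 * X 1) * om a Y - (a 0 * Y 0 + a 1 * Y 1) * om a X := by
    unfold om
    linear_combination (X 1 * Y 0 - X 0 * Y 1) * ha
  have ha0 : |a 0| ≤ 1 := by
    rw [abs_le_one_iff_mul_self_le_one]
    nlinarith [sq_nonneg (a 1)]
  have ha1 : |a 1| ≤ 1 := by
    rw [abs_le_one_iff_mul_self_le_one]
    nlinarith [sq_nonneg (a 0)]
  have h2 : ∀ U : Fin 2 → ℝ, (∀ i, |U i| ≤ 32) → |a 0 * U 0 + a 1 * U 1| ≤ 64 := by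
    intro U hU
    refine (abs_add_le _ _).trans ?_
    rw [abs_mul, abs_mul]
    have := mul_le_mul ha0 (hU 0) (abs_nonneg _) zero_le_one
    have := mul_le_mul ha1 (hU 1) (abs_nonneg _) zero_le_one
    linarith
  rw [e] at h
  have h3 := h.trans (abs_sub _ _)
  rw [abs_mul, abs_mul] at h3
  have h4 := mul_le_mul_of_nonneg_right (h2 X hX) (abs_nonneg (om a Y))
  have h5 := mul_le_mul_of_nonneg_right (h2 Y hY) (abs_nonneg (om a X))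
  linarith [hc.1, hc.2]

end basic

end

end Pool.Agent.Helper92.W
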